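import Pool.Agent.V1139.DC.Unif

/-!
# Digits, for families of numbers

Author: helper39.
-/

set_option autoImplicit false

namespace Pool.Agent.V1139.DC

open Polynomial Finset

/-- the digits statement from the statement on near relations, uniform in `z` -/
theorem digits_core (n : ℕ) (T ν ε : ℝ) (hν : ν ≤ 1) (hε : 0 < ε) :
    ∃ K₀ : ℝ, 0 < K₀ ∧ ∀ K : ℝ, K₀ ≤ K → ∀ (Λ z : ℝ) (ξ : ℂ), |z| ≤ T →
      (∀ Q ∈ Near z n (Real.exp ((ν - ε / 4) * Λ)) (Real.exp ((ν - ε / 4) * Λ - Λ)),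
        aeval ξ Q = 0) →
      ∀ (P : ℤ[X]) (D : ℕ), P.natDegree ≤ n → 1 ≤ D → (D : ℝ) ≤ Real.exp (ε / 8 * Λ) →
        (∀ i, |(P.coeff i : ℝ)| ≤ Real.exp (ε / 8 * Λ)) →
        Small (ν - ε) K Λ (aeval z P / D) → ∃ r : ℚ, aeval ξ P = r := by
  obtain ⟨K₁, hK₁, hK⟩ := approx_of_small ν ε hν hε
  obtain ⟨A, hA⟩ : ∃ A : ℝ, A = ((n + 1) * (max 1 T) ^ n) := ⟨_, rfl⟩
  have hA0 : 0 < A := by rw [hA]; positivity
  obtain ⟨B, hB⟩ : ∃ B : ℝ, B = ((n : ℝ) + 1) * (2 + A) := ⟨_, rfl⟩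
  have hB0 : 0 < B := by rw [hB]; positivity
  have hlB := abs_nonneg (Real.log B)
  refine ⟨K₁ + 16 / ε * (|Real.log B| + 1), by positivity, fun K hKK Λ z ξ hz hξ P D hPn hD1 hDδ
    hPδ hx => ?_⟩
  have hKK₁ : K₁ ≤ K := by
    have : 0 ≤ 16 / ε * (|Real.log B| + 1) := by positivity
    linarith
  obtain ⟨hνε, hKΛ, q, p, hq1, hqU, hqx⟩ := hK K hKK₁ Λ _ hx
  have hΛ : 16 / ε * (|Real.log B| + 1) ≤ 2 * Λ := by linarith
  have hΛ2 : |Real.log B| + 1 ≤ ε / 8 * Λ := by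
    rw [div_mul_eq_mul_div, div_le_iff₀ hε] at hΛ
    linarith
  have hΛ0 : 0 < Λ := by
    have : 0 < ε / 8 * Λ := by linarith
    by_contra hcon
    push Not at hcon
    have := mul_nonpos_of_nonneg_of_nonpos (by linarith : 0 ≤ ε / 8) hcon
    linarith
  obtain ⟨U, hU⟩ : ∃ U : ℝ, U = (ν - ε / 4) * Λ := ⟨_, rfl⟩
  rw [← hU] at hξ
  obtain ⟨W, hW⟩ : ∃ W : ℝ, W = Real.exp (ε / 8 * Λ) := ⟨_, rfl⟩
  rw [← hW] at hDδ hPδ
  have hW1 : 1 ≤ W := by rw [hW]; exact Real.one_le_exp (by positivity)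
  have hD0 : (0 : ℝ) < D := by exact_mod_cast hD1
  have hq0 : (0 : ℝ) < q := by exact_mod_cast hq1
  have hqR : (1 : ℝ) ≤ q := by exact_mod_cast hq1
  have hPz : |aeval z P| ≤ A * W := by
    refine (abs_aeval_le z P n hPn W hPδ).trans ?_
    rw [hA]
    have h1 : max 1 |z| ≤ max 1 T := max_le_max le_rfl hz
    have h2 : (0 : ℝ) ≤ W := by linarith
    gcongr
  by_cases hP0 : P.natDegree = 0
  · refine ⟨(P.coeff 0 : ℤ), ?_⟩
    rw [Polynomial.eq_C_of_natDegree_eq_zero hP0, aeval_C]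
    simp
  obtain ⟨Q, hQ⟩ : ∃ Q : ℤ[X], Q = C (q : ℤ) * P - C (p * D) := ⟨_, rfl⟩
  have hQdeg : Q.natDegree ≤ n := by
    rw [hQ, natDegree_sub_C]
    exact (natDegree_C_mul_le _ _).trans hPn
  have hQne : Q ≠ 0 := by
    intro h0
    have h1 : Q.natDegree = P.natDegree := by
      rw [hQ, natDegree_sub_C]
      exact natDegree_C_mul (by exact_mod_cast (by omega : q ≠ 0))
    rw [h0, natDegree_zero] at h1
    exact hP0 h1.symm
  have hQz : aeval z Q = D * (q * (aeval z P / D) - p) := by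
    rw [hQ, map_sub, map_mul, aeval_C, aeval_C]
    simp only [algebraMap_int_eq, eq_intCast]
    push_cast
    field_simp
  have hexp1 : Real.exp ((ν - ε / 2) * Λ - Λ) ≤ 1 := by
    rw [Real.exp_le_one_iff]
    nlinarith
  have hp : |((p * D : ℤ) : ℝ)| ≤ q * (A * W) + W := by
    push_cast
    have h1 : (p : ℝ) * D = q * aeval z P - D * (q * (aeval z P / D) - p) := by
      field_simp
      ring
    rw [h1]
    refine (abs_sub _ _).trans ?_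
    rw [abs_mul, abs_mul, abs_of_pos hq0, abs_of_pos hD0]
    have h2 : (D : ℝ) * |q * (aeval z P / D) - p| ≤ W * 1 :=
      mul_le_mul hDδ (hqx.trans hexp1) (abs_nonneg _) (by linarith)
    have h3 : (q : ℝ) * |aeval z P| ≤ q * (A * W) := mul_le_mul_of_nonneg_left hPz hq0.le
    linarith
  have hcoeff : ∀ i, |(Q.coeff i : ℝ)| ≤ (2 + A) * (q * W) := by
    intro i
    have h1 : |((C (q : ℤ) * P : ℤ[X]).coeff i : ℝ)| ≤ q * W := by
      rw [coeff_C_mul]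
      push_cast
      rw [abs_mul, abs_of_pos hq0]
      exact mul_le_mul_of_nonneg_left (hPδ i) hq0.le
    have h2 : |((C (p * D) : ℤ[X]).coeff i : ℝ)| ≤ q * (A * W) + W := by
      rw [coeff_C]
      split_ifs
      · exact hp
      · simp only [Int.cast_zero, abs_zero]; positivity
    rw [hQ, coeff_sub]
    push_cast only [Int.cast_sub]
    refine (abs_sub _ _).trans ?_
    have h3 : W ≤ q * W := le_mul_of_one_le_left (by linarith) hqR
    nlinarith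
  have hqW : (q : ℝ) * W ≤ Real.exp ((ν - ε / 2) * Λ + ε / 8 * Λ) := by
    rw [Real.exp_add, ← hW]
    exact mul_le_mul_of_nonneg_right hqU (by linarith)
  have hMM : MM Q ≤ Real.exp U := by
    refine (MM_le Q n hQdeg _ hcoeff).trans ?_
    have h1 : ((n : ℝ) + 1) * ((2 + A) * (q * W)) = B * (q * W) := by rw [hB]; ring
    rw [h1]
    have h2 : B * (q * W) ≤ Real.exp (Real.log B) * Real.exp ((ν - ε / 2) * Λ + ε / 8 * Λ) := by
      rw [Real.exp_log hB0]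
      exact mul_le_mul_of_nonneg_left hqW hB0.le
    refine h2.trans ?_
    rw [← Real.exp_add]
    apply Real.exp_le_exp.2
    have h3 := le_abs_self (Real.log B)
    rw [hU]
    linarith
  have hval : |aeval z Q| ≤ Real.exp (U - Λ) := by
    rw [hQz, abs_mul, abs_of_pos hD0]
    have h1 : (D : ℝ) * |q * (aeval z P / D) - p| ≤ W * Real.exp ((ν - ε / 2) * Λ - Λ) :=
      mul_le_mul hDδ hqx (abs_nonneg _) (by linarith)
    refine h1.trans ?_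
    rw [hW, ← Real.exp_add]
    apply Real.exp_le_exp.2
    rw [hU]
    nlinarith
  have hroot := hξ Q ⟨hQne, hQdeg, hMM, hval⟩
  rw [hQ, map_sub, map_mul, aeval_C, aeval_C] at hroot
  simp only [algebraMap_int_eq, eq_intCast] at hroot
  refine ⟨(p * D : ℤ) / (q : ℚ), ?_⟩
  have hqC : (q : ℂ) ≠ 0 := by exact_mod_cast (by omega : q ≠ 0)
  push_cast at hroot ⊢
  rw [eq_div_iff hqC]
  linear_combination hroot

/-- **Digits, families** -/
theorem family_digits (z : ℕ → ℝ) (A : Finset ℕ) (K : ℕ) (τ c₀ : ℝ) (hτ : 0 ≤ τ) (hc₀ : 0 < c₀)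
    (q₀ : ℕ) (hz : ∀ q : ℕ, q₀ ≤ q → 1 ≤ q → K ≤ Set.ncard {j : ℕ | j ∈ A ∧
      ∀ p : ℤ, c₀ * (q : ℝ) ^ (-τ) ≤ |(q : ℝ) * z j - p|}) (n : ℕ) (hn : 1 ≤ n) (ε : ℝ)
    (hε : 0 < ε) :
    ∃ K₁ δ : ℝ, 0 < K₁ ∧ 0 < δ ∧ ∀ Λ : ℝ, K ≤ Set.ncard {j : ℕ | j ∈ A ∧
      ∃ ξ : ℂ, Absorbs (z j) n (1 / ((n : ℝ) * (A.card * (1 + τ) + 2)) - ε) K₁ δ Λ ξ} := by
  classical
  obtain ⟨T, hT⟩ : ∃ T : ℝ, T = 1 + ∑ j ∈ A, |z j| := ⟨_, rfl⟩
  have hzT : ∀ j ∈ A, |z j| ≤ T := by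
    intro j hj
    have := Finset.single_le_sum (f := fun j => |z j|) (fun i _ => abs_nonneg _) hj
    rw [hT]
    linarith
  obtain ⟨c, hc, h⟩ := family_tame z A K τ c₀ hτ hc₀ q₀ hz n hn
  obtain ⟨M, hM⟩ : ∃ M : ℝ, M = (n : ℝ) * (A.card * (1 + τ) + 2) := ⟨_, rfl⟩
  rw [← hM] at h ⊢
  have hn1 : (1 : ℝ) ≤ n := by exact_mod_cast hn
  have hM1 : 1 ≤ M := by
    rw [hM]
    have h1 : (0 : ℝ) ≤ A.card * (1 + τ) := by positivity
    nlinarith
  obtain ⟨ν, hν⟩ : ∃ ν : ℝ, ν = 1 / M := ⟨_, rfl⟩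
  have hνM : M * ν = 1 := by rw [hν]; field_simp
  have hν1 : ν ≤ 1 := by rw [hν, div_le_one (by linarith)]; exact hM1
  rw [← hν]
  obtain ⟨K₀, hK₀, hK⟩ := digits_core n T ν ε hν1 hε
  obtain ⟨K₂, hK₂, hK'⟩ := approx_of_small ν ε hν1 hε
  have hlc := abs_nonneg (Real.log c)
  obtain ⟨K₁, hK₁⟩ : ∃ K₁ : ℝ, K₁ = K₀ + K₂ + 16 / ε * (|Real.log c| + 1) := ⟨_, rfl⟩
  have hpos : 0 < 16 / ε * (|Real.log c| + 1) := by positivity
  refine ⟨K₁, ε / 8, by linarith, by positivity, fun Λ => ?_⟩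
  have hAK : K ≤ A.card := by
    have h1 := hz (q₀ + 1) (by omega) (by omega)
    refine h1.trans ?_
    rw [← Set.ncard_coe_finset]
    exact Set.ncard_le_ncard (fun j hj => hj.1) A.finite_toSet
  by_cases hex : ∃ x : ℝ, Small (ν - ε) K₁ Λ x
  swap
  · refine hAK.trans ?_
    rw [← Set.ncard_coe_finset]
    refine Set.ncard_le_ncard (fun j hj => ⟨hj, Complex.I, ?_⟩)
      (A.finite_toSet.subset fun j hj => hj.1)
    obtain ⟨h1, h2⟩ := irrAlg_I n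
    exact ⟨h1, h2, fun P D _ _ _ _ hx => absurd ⟨_, hx⟩ hex⟩
  obtain ⟨x₀, hx₀⟩ := hex
  obtain ⟨hνε, hKΛ, -⟩ := hK' K₁ (by linarith) Λ x₀ hx₀
  have hΛ : 16 / ε * (|Real.log c| + 1) ≤ 2 * Λ := by linarith
  have hΛ2 : |Real.log c| + 1 ≤ ε / 8 * Λ := by
    rw [div_mul_eq_mul_div, div_le_iff₀ hε] at hΛ
    linarith
  have hΛ0 : 0 < Λ := by
    have : 0 < ε / 8 * Λ := by linarith
    by_contra hcon
    push Not at hcon
    have := mul_nonpos_of_nonneg_of_nonpos (by linarith : 0 ≤ ε / 8) hcon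
    linarith
  obtain ⟨U, hU⟩ : ∃ U : ℝ, U = (ν - ε / 4) * Λ := ⟨_, rfl⟩
  have hU0 : 0 ≤ U := by rw [hU]; exact mul_nonneg (by linarith) hΛ0.le
  have hmain := h (Real.exp U) (Real.one_le_exp hU0) (Real.exp (U - Λ)) (by
    rw [← Real.exp_mul]
    obtain ⟨lc, hlc'⟩ : ∃ lc, lc = Real.log c := ⟨_, rfl⟩
    have h1 : c = Real.exp lc := by rw [hlc', Real.exp_log hc]
    rw [← hlc'] at hΛ2
    rw [h1]
    rw [← Real.exp_add]
    apply Real.exp_lt_exp.2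
    have h2 := neg_abs_le lc
    have h2' := abs_nonneg lc
    have h3 : U * (-(M - 1)) = U - M * U := by ring
    have h4 : M * U = Λ - M * (ε / 4) * Λ := by
      rw [hU]; linear_combination Λ * hνM
    have h5 : ε / 4 * Λ ≤ M * (ε / 4) * Λ := by
      apply mul_le_mul_of_nonneg_right _ hΛ0.le
      nlinarith
    rw [h3, h4]
    linarith)
  refine hmain.trans (Set.ncard_le_ncard ?_ (A.finite_toSet.subset fun j hj => hj.1))
  rintro j ⟨hjA, ξ, ⟨hξ1, hξ2⟩, hξ3⟩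
  refine ⟨hjA, ξ, hξ1, hξ2, ?_⟩
  exact hK K₁ (by linarith) Λ (z j) ξ (hzT j hjA) (by rw [← hU]; exact hξ3)

end Pool.Agent.V1139.DC
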