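import Pool.Agent.V1139.DC.Digits

/-!
# Consequences: linear functionals, powers, coprime exponents, almost all polynomials

Author: helper39.
-/

set_option autoImplicit false

namespace Pool.Agent.V1139.DC

open Polynomial Finset
open Pool.Agent.Results.MP_a49cf6_nt.DigitRecurrences (complexity)

/-- a linear functional -/
theorem functional (ξ : ℂ) (hξ : ¬ ∃ r : ℚ, ξ = r) : ∃ c : ℕ → ℚ, c 0 = 0 ∧ c 1 ≠ 0 ∧
    ∀ (n : ℕ) (P : ℤ[X]), P.natDegree ≤ n → (∃ r : ℚ, aeval ξ P = r) →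
      ∑ i ∈ range (n + 1), c i * P.coeff i = 0 := by
  have hmem : ξ ∉ Submodule.span ℚ ({1} : Set ℂ) := by
    intro h
    rw [Submodule.mem_span_singleton] at h
    obtain ⟨a, ha⟩ := h
    exact hξ ⟨a, by rw [← ha, Rat.smul_one_eq_cast]⟩
  obtain ⟨f, hf1, hf2⟩ := Submodule.exists_dual_map_eq_bot_of_notMem hmem inferInstance
  have hf3 : f 1 = 0 := by
    have h1 : f 1 ∈ Submodule.map f (Submodule.span ℚ ({1} : Set ℂ)) :=
      Submodule.mem_map_of_mem (Submodule.mem_span_singleton_self 1)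
    rw [hf2] at h1
    simpa using h1
  refine ⟨fun i => f (ξ ^ i), by simpa using hf3, by simpa using hf1, fun n P hP hr => ?_⟩
  obtain ⟨r, hr⟩ := hr
  have h1 : f (aeval ξ P) = 0 := by
    rw [hr, ← Rat.smul_one_eq_cast, map_smul, hf3, smul_zero]
  rw [aeval_eq_sum_range' (show P.natDegree < n + 1 by omega), map_sum] at h1
  rw [← h1]
  refine Finset.sum_congr rfl fun i _ => ?_
  have h2 : (P.coeff i) • ξ ^ i = ((P.coeff i : ℤ) : ℚ) • ξ ^ i := by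
    rw [Int.cast_smul_eq_zsmul]
  rw [h2, map_smul, smul_eq_mul, mul_comm]

/-- rational powers of an irrational number -/
theorem powers (ξ : ℂ) (hξ : ¬ ∃ r : ℚ, ξ = r) :
    ∃ k₀ : ℕ, 2 ≤ k₀ ∧ ∀ k : ℕ, (∃ r : ℚ, ξ ^ k = r) → k₀ ∣ k := by
  classical
  have hξ0 : ξ ≠ 0 := by
    intro h
    exact hξ ⟨0, by rw [h]; simp⟩
  by_cases hex : ∃ k : ℕ, 1 ≤ k ∧ ∃ r : ℚ, ξ ^ k = r
  · obtain ⟨k₀, hk₀⟩ : ∃ k₀, k₀ = Nat.find hex := ⟨_, rfl⟩
    obtain ⟨h1, r₀, hr₀⟩ := Nat.find_spec hex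
    rw [← hk₀] at h1 hr₀
    refine ⟨k₀, ?_, fun k hk => ?_⟩
    · by_contra hcon
      have h2 : k₀ = 1 := by omega
      rw [h2, pow_one] at hr₀
      exact hξ ⟨r₀, hr₀⟩
    · obtain ⟨r, hr⟩ := hk
      by_contra hdvd
      have hlt : k % k₀ < k₀ := Nat.mod_lt _ (by omega)
      have hpos : 1 ≤ k % k₀ := Nat.one_le_iff_ne_zero.2 fun h => hdvd (Nat.dvd_of_mod_eq_zero h)
      have hmin := Nat.find_min hex (m := k % k₀) (by rw [← hk₀]; exact hlt)
      apply hmin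
      refine ⟨hpos, r / r₀ ^ (k / k₀), ?_⟩
      have h3 : ξ ^ k = (ξ ^ k₀) ^ (k / k₀) * ξ ^ (k % k₀) := by
        rw [← pow_mul, ← pow_add, Nat.div_add_mod]
      rw [hr, hr₀] at h3
      have h4 : ((r₀ : ℂ)) ^ (k / k₀) ≠ 0 := by
        rw [← hr₀]
        exact pow_ne_zero _ (pow_ne_zero _ hξ0)
      push_cast
      rw [eq_div_iff h4, h3]
      ring
  · refine ⟨2, le_rfl, fun k hk => ?_⟩
    rcases Nat.eq_zero_or_pos k with h | h
    · rw [h]; exact dvd_zero _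
    · exact absurd ⟨k, h, hk⟩ hex

lemma monomial_coeff_le (A B : ℤ) (k : ℕ) (hk : 1 ≤ k) (Y : ℝ) (hA : |(A : ℝ)| ≤ Y)
    (hB : |(B : ℝ)| ≤ Y) (i : ℕ) : |((C A * X ^ k + C B : ℤ[X]).coeff i : ℝ)| ≤ Y := by
  rw [coeff_add, coeff_C_mul_X_pow, coeff_C]
  by_cases h : i = k
  · rw [if_pos h, if_neg (by omega), add_zero]; exact hA
  · rw [if_neg h, zero_add]
    split_ifs
    · exact hB
    · simp only [Int.cast_zero, abs_zero]; exact (abs_nonneg _).trans hA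

lemma monomial_natDegree (A B : ℤ) (k n : ℕ) (hk : k ≤ n) :
    (C A * X ^ k + C B : ℤ[X]).natDegree ≤ n := by
  refine (natDegree_add_le _ _).trans (max_le ((natDegree_C_mul_X_pow_le _ _).trans hk) ?_)
  rw [natDegree_C]; exact Nat.zero_le _

/-- the irrational absorbing number, as a property -/
def Absorbs (z : ℝ) (n : ℕ) (ν K δ Λ : ℝ) (ξ : ℂ) : Prop :=
  (¬ ∃ r : ℚ, ξ = r) ∧ (∃ G : ℤ[X], G ≠ 0 ∧ G.natDegree ≤ max n 2 ∧ aeval ξ G = 0) ∧
    ∀ (P : ℤ[X]) (D : ℕ), P.natDegree ≤ n → 1 ≤ D → (D : ℝ) ≤ Real.exp (δ * Λ) →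
      (∀ i, |(P.coeff i : ℝ)| ≤ Real.exp (δ * Λ)) → Small ν K Λ (aeval z P / D) →
      ∃ r : ℚ, aeval ξ P = r

/-- **powers, one scale** -/
theorem powers_small (z : ℝ) (n : ℕ) (ν K δ Λ : ℝ) (ξ : ℂ) (h : Absorbs z n ν K δ Λ ξ) :
    ∃ k₀ : ℕ, 2 ≤ k₀ ∧ ∀ k : ℕ, 1 ≤ k → k ≤ n → ∀ (A B : ℤ) (D : ℕ), A ≠ 0 → 1 ≤ D →
      |(A : ℝ)| ≤ Real.exp (δ * Λ) → |(B : ℝ)| ≤ Real.exp (δ * Λ) → (D : ℝ) ≤ Real.exp (δ * Λ) →
      Small ν K Λ ((A * z ^ k + B) / D) → k₀ ∣ k := by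
  obtain ⟨h1, -, h3⟩ := h
  obtain ⟨k₀, hk₀, hk⟩ := powers ξ h1
  refine ⟨k₀, hk₀, fun k hk1 hkn A B D hA hD hAδ hBδ hDδ hs => hk k ?_⟩
  obtain ⟨r, hr⟩ := h3 (C A * X ^ k + C B) D (monomial_natDegree A B k n hkn) hD hDδ
    (monomial_coeff_le A B k hk1 _ hAδ hBδ) (by
      have h4 : aeval z (C A * X ^ k + C B : ℤ[X]) = A * z ^ k + B := by simp
      rw [h4]; exact hs)
  refine ⟨(r - B) / A, ?_⟩
  have hAC : (A : ℂ) ≠ 0 := by exact_mod_cast hA
  have h5 : aeval ξ (C A * X ^ k + C B : ℤ[X]) = A * ξ ^ k + B := by simp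
  rw [h5] at hr
  push_cast
  rw [eq_div_iff hAC]
  linear_combination hr

/-- **coprime exponents** -/
theorem coprime_powers (z : ℝ) (j k : ℕ) (hj : 1 ≤ j) (hk : 1 ≤ k) (hjk : Nat.Coprime j k)
    (ν : ℝ) (hν : ν ≤ 1) (K δ : ℝ) (hK : 0 < K) (hδ : 0 < δ)
    (h : ∀ Λ : ℝ, ∃ ξ : ℂ, Absorbs z (max j k) ν K δ Λ ξ) :
    ∀ b c : ℕ, 2 ≤ b → 2 ≤ c → ∀ L M : ℕ, ν * min (L * Real.log b) (M * Real.log c) ≤
      max (complexity b (z ^ j) L * Real.log b) (complexity c (z ^ k) M * Real.log c) +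
        K * (Real.log b + Real.log c) := by
  intro b c hb hc L M
  have hlb : 0 < Real.log b := Real.log_pos (by exact_mod_cast (by omega : 1 < b))
  have hlc : 0 < Real.log c := Real.log_pos (by exact_mod_cast (by omega : 1 < c))
  obtain ⟨Λ, hΛ⟩ : ∃ Λ, Λ = min (L * Real.log b) (M * Real.log c) := ⟨_, rfl⟩
  rw [← hΛ]
  have hΛ0 : 0 ≤ Λ := by rw [hΛ]; exact le_min (by positivity) (by positivity)
  have hN : 0 ≤ max (complexity b (z ^ j) L * Real.log b) (complexity c (z ^ k) M * Real.log c) :=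
    le_max_of_le_left (by positivity)
  have hKb : 0 < K * Real.log b := by positivity
  have hKc : 0 < K * Real.log c := by positivity
  by_contra hcon
  push Not at hcon
  have hνΛ : ν * Λ ≤ Λ := by nlinarith
  have h1 : K * Real.log b ≤ Λ := by nlinarith
  have h2 : K * Real.log c ≤ Λ := by nlinarith
  have h3 := le_max_left (complexity b (z ^ j) L * Real.log b)
    (complexity c (z ^ k) M * Real.log c)
  have h4 := le_max_right (complexity b (z ^ j) L * Real.log b)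
    (complexity c (z ^ k) M * Real.log c)
  have hsj : Small ν K Λ (z ^ j) :=
    ⟨b, L, hb, h1, by rw [hΛ]; exact min_le_left _ _, by linarith⟩
  have hsk : Small ν K Λ (z ^ k) :=
    ⟨c, M, hc, h2, by rw [hΛ]; exact min_le_right _ _, by linarith⟩
  obtain ⟨ξ, hξ⟩ := h Λ
  obtain ⟨k₀, hk₀, hdvd⟩ := powers_small z _ ν K δ Λ ξ hξ
  have hexp : 1 ≤ Real.exp (δ * Λ) := Real.one_le_exp (by positivity)
  have hone : ∀ m : ℕ, ((((1 : ℤ) : ℝ)) * z ^ m + ((0 : ℤ) : ℝ)) / ((1 : ℕ) : ℝ) = z ^ m := by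
    intro m; push_cast; ring
  have hj' := hdvd j hj (le_max_left _ _) 1 0 1 one_ne_zero le_rfl (by simpa using hexp)
    (by simpa using (zero_le_one.trans hexp)) (by simpa using hexp) (by rw [hone]; exact hsj)
  have hk' := hdvd k hk (le_max_right _ _) 1 0 1 one_ne_zero le_rfl (by simpa using hexp)
    (by simpa using (zero_le_one.trans hexp)) (by simpa using hexp) (by rw [hone]; exact hsk)
  have h5 := Nat.dvd_gcd hj' hk'
  rw [hjk] at h5
  have := Nat.le_of_dvd one_pos h5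
  omega

/-- **almost all polynomials** -/
theorem count (z : ℝ) (n : ℕ) (hn : 1 ≤ n) (ν K δ Λ : ℝ) (ξ : ℂ) (h : Absorbs z n ν K δ Λ ξ)
    (hδΛ : 0 ≤ δ * Λ) (Y : ℕ) (hY : (Y : ℝ) ≤ Real.exp (δ * Λ)) :
    {P : ℤ[X] | P.natDegree ≤ n ∧ (∀ i, |P.coeff i| ≤ Y) ∧ Small ν K Λ (aeval z P)}.Finite ∧
    {P : ℤ[X] | P.natDegree ≤ n ∧ (∀ i, |P.coeff i| ≤ Y) ∧
      Small ν K Λ (aeval z P)}.ncard ≤ (2 * Y + 1) ^ n := by
  classical
  obtain ⟨h1, -, h3⟩ := h
  obtain ⟨c, -, hc1, hc⟩ := functional ξ h1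
  obtain ⟨S, hS⟩ : ∃ S : Set ℤ[X], S = {P : ℤ[X] | P.natDegree ≤ n ∧ (∀ i, |P.coeff i| ≤ Y) ∧
    Small ν K Λ (aeval z P)} := ⟨_, rfl⟩
  rw [← hS]
  -- the coefficients except the first
  obtain ⟨g, hg⟩ : ∃ g : ℤ[X] → (Fin n → ℤ), g = fun (P : ℤ[X]) (i : Fin n) =>
    if (i : ℕ) = 0 then P.coeff 0 else P.coeff ((i : ℕ) + 1) := ⟨_, rfl⟩
  obtain ⟨B, hB⟩ : ∃ B : Finset (Fin n → ℤ), B = Fintype.piFinset fun _ => Finset.Icc (-(Y : ℤ)) Y :=
    ⟨_, rfl⟩
  have hmaps : ∀ P ∈ S, g P ∈ (B : Set (Fin n → ℤ)) := by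
    intro P hP
    rw [hS] at hP
    rw [hB, Finset.mem_coe, Fintype.mem_piFinset]
    intro i
    rw [Finset.mem_Icc, ← abs_le, hg]
    dsimp only
    split_ifs
    · exact hP.2.1 _
    · exact hP.2.1 _
  have hinj : Set.InjOn g S := by
    intro P hP Q hQ hPQ
    rw [hS] at hP hQ
    have hcoef : ∀ i, i ≠ 1 → P.coeff i = Q.coeff i := by
      intro i hi
      rcases lt_or_ge n i with h4 | h4
      · rw [coeff_eq_zero_of_natDegree_lt (by have := hP.1; omega),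
          coeff_eq_zero_of_natDegree_lt (by have := hQ.1; omega)]
      · rcases Nat.eq_zero_or_pos i with h5 | h5
        · have h6 := congrFun hPQ ⟨0, by omega⟩
          rw [hg] at h6
          simp only [if_true] at h6
          rw [h5]; exact h6
        · have h6 := congrFun hPQ ⟨i - 1, by omega⟩
          rw [hg] at h6
          dsimp only at h6
          rw [if_neg (by omega), if_neg (by omega), show i - 1 + 1 = i by omega] at h6
          exact h6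
    have hrel : ∀ P' : ℤ[X], P'.natDegree ≤ n ∧ (∀ i, |P'.coeff i| ≤ Y) ∧
        Small ν K Λ (aeval z P') → ∑ i ∈ range (n + 1), c i * P'.coeff i = 0 := by
      intro P' hP'
      refine hc n P' hP'.1 (h3 P' 1 hP'.1 le_rfl ?_ ?_ ?_)
      · rw [Nat.cast_one]; exact Real.one_le_exp hδΛ
      · intro i
        refine le_trans ?_ hY
        exact_mod_cast hP'.2.1 i
      · rw [Nat.cast_one, div_one]; exact hP'.2.2
    have h4 := hrel P hP
    have h5 := hrel Q hQ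
    have h6 : c 1 * (P.coeff 1 : ℚ) = c 1 * Q.coeff 1 := by
      have h7 : ∑ i ∈ range (n + 1), c i * P.coeff i = c 1 * (P.coeff 1 : ℚ) +
          ∑ i ∈ (range (n + 1)).erase 1, c i * P.coeff i :=
        (Finset.add_sum_erase _ (fun i => c i * (P.coeff i : ℚ)) (by rw [mem_range]; omega)).symm
      have h8 : ∑ i ∈ range (n + 1), c i * Q.coeff i = c 1 * (Q.coeff 1 : ℚ) +
          ∑ i ∈ (range (n + 1)).erase 1, c i * Q.coeff i :=
        (Finset.add_sum_erase _ (fun i => c i * (Q.coeff i : ℚ)) (by rw [mem_range]; omega)).symm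
      have h9 : ∑ i ∈ (range (n + 1)).erase 1, c i * P.coeff i =
          ∑ i ∈ (range (n + 1)).erase 1, c i * (Q.coeff i : ℚ) :=
        Finset.sum_congr rfl fun i hi => by rw [hcoef i (Finset.ne_of_mem_erase hi)]
      rw [h4] at h7
      rw [h5] at h8
      rw [h9] at h7
      linarith
    have h7 : (P.coeff 1 : ℚ) = Q.coeff 1 := mul_left_cancel₀ hc1 h6
    ext i
    rcases eq_or_ne i 1 with h8 | h8
    · rw [h8]; exact_mod_cast h7
    · exact hcoef i h8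
  have hfin : S.Finite := Set.Finite.of_injOn hmaps hinj B.finite_toSet
  refine ⟨hfin, ?_⟩
  have h4 := Set.ncard_le_ncard_of_injOn g hmaps hinj B.finite_toSet
  rw [Set.ncard_coe_finset, hB, Fintype.card_piFinset, Finset.prod_const, Finset.card_univ,
    Fintype.card_fin, Int.card_Icc] at h4
  refine h4.trans (le_of_eq ?_)
  congr 1
  omega

end Pool.Agent.V1139.DC
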