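import Pool.Agent.V1139.DC.Digits

/-!
# Two numbers which are not both close to algebraic numbers: digits

Author: helper39.
-/

set_option autoImplicit false

namespace Pool.Agent.V1139.DC

open Polynomial Finset

/-- a polynomial in `z` of small linear complexity gives a near algebraic relation -/
theorem near_of_small (n : ℕ) (T ν ε : ℝ) (hν : ν ≤ 1) (hε : 0 < ε) :
    ∃ K₀ : ℝ, 0 < K₀ ∧ ∀ K : ℝ, K₀ ≤ K → ∀ (Λ z : ℝ), |z| ≤ T →
      ∀ (P : ℤ[X]) (D : ℕ), P.natDegree ≤ n → 1 ≤ D → (D : ℝ) ≤ Real.exp (ε / 8 * Λ) →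
        (∀ i, |(P.coeff i : ℝ)| ≤ Real.exp (ε / 8 * Λ)) →
        Small (ν - ε) K Λ (aeval z P / D) → 0 < ν - ε ∧ K / 2 ≤ Λ ∧ ∃ (q : ℕ) (p : ℤ), 1 ≤ q ∧
          (∀ i, |((C (q : ℤ) * P - C (p * D) : ℤ[X]).coeff i : ℝ)| ≤ Real.exp ((ν - ε / 4) * Λ)) ∧
          |aeval z (C (q : ℤ) * P - C (p * D) : ℤ[X])| ≤ Real.exp ((ν - ε / 4) * Λ - Λ) := by
  obtain ⟨K₁, hK₁, hK⟩ := approx_of_small ν ε hν hε
  obtain ⟨A, hA⟩ : ∃ A : ℝ, A = ((n + 1) * (max 1 T) ^ n) := ⟨_, rfl⟩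
  have hA0 : 0 < A := by rw [hA]; positivity
  obtain ⟨B, hB⟩ : ∃ B : ℝ, B = 2 + A := ⟨_, rfl⟩
  have hB0 : 0 < B := by rw [hB]; positivity
  have hlB := abs_nonneg (Real.log B)
  refine ⟨K₁ + 16 / ε * (|Real.log B| + 1), by positivity, fun K hKK Λ z hz P D hPn hD1 hDδ
    hPδ hx => ?_⟩
  have hKK₁ : K₁ ≤ K := by
    have : 0 ≤ 16 / ε * (|Real.log B| + 1) := by positivity
    linarith
  obtain ⟨hνε, hKΛ, q, p, hq1, hqU, hqx⟩ := hK K hKK₁ Λ _ hx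
  have hΛ : 16 / ε * (|Real.log B| + 1) ≤ 2 * Λ := by linarith
  have hΛ2 : |Real.log B| + 1 ≤ ε / 8 * Λ := by
    rw [div_mul_eq_mul_div, div_le_iff₀ hε] at hΛ
    linarith
  have hΛ0 : 0 < Λ := by
    have : 0 < ε / 8 * Λ := by linarith
    by_contra hcon
    push Not at hcon
    have := mul_nonpos_of_nonneg_of_nonpos (by linarith : 0 ≤ ε / 8) hcon
    linarith
  obtain ⟨W, hW⟩ : ∃ W : ℝ, W = Real.exp (ε / 8 * Λ) := ⟨_, rfl⟩
  rw [← hW] at hDδ hPδ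
  have hW1 : 1 ≤ W := by rw [hW]; exact Real.one_le_exp (by positivity)
  have hD0 : (0 : ℝ) < D := by exact_mod_cast hD1
  have hq0 : (0 : ℝ) < q := by exact_mod_cast hq1
  have hqR : (1 : ℝ) ≤ q := by exact_mod_cast hq1
  have hPz : |aeval z P| ≤ A * W := by
    refine (abs_aeval_le z P n hPn W hPδ).trans ?_
    rw [hA]
    have h1 : max 1 |z| ≤ max 1 T := max_le_max le_rfl hz
    have h2 : (0 : ℝ) ≤ W := by linarith
    gcongr
  obtain ⟨Q, hQ⟩ : ∃ Q : ℤ[X], Q = C (q : ℤ) * P - C (p * D) := ⟨_, rfl⟩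
  have hQz : aeval z Q = D * (q * (aeval z P / D) - p) := by
    rw [hQ, map_sub, map_mul, aeval_C, aeval_C]
    simp only [algebraMap_int_eq, eq_intCast]
    push_cast
    field_simp
  have hexp1 : Real.exp ((ν - ε / 2) * Λ - Λ) ≤ 1 := by
    rw [Real.exp_le_one_iff]
    nlinarith
  have hp : |((p * D : ℤ) : ℝ)| ≤ q * (A * W) + W := by
    push_cast
    have h1 : (p : ℝ) * D = q * aeval z P - D * (q * (aeval z P / D) - p) := by
      field_simp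
      ring
    rw [h1]
    refine (abs_sub _ _).trans ?_
    rw [abs_mul, abs_mul, abs_of_pos hq0, abs_of_pos hD0]
    have h2 : (D : ℝ) * |q * (aeval z P / D) - p| ≤ W * 1 :=
      mul_le_mul hDδ (hqx.trans hexp1) (abs_nonneg _) (by linarith)
    have h3 : (q : ℝ) * |aeval z P| ≤ q * (A * W) := mul_le_mul_of_nonneg_left hPz hq0.le
    linarith
  have hcoeff : ∀ i, |(Q.coeff i : ℝ)| ≤ B * (q * W) := by
    intro i
    have h1 : |((C (q : ℤ) * P : ℤ[X]).coeff i : ℝ)| ≤ q * W := by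
      rw [coeff_C_mul]
      push_cast
      rw [abs_mul, abs_of_pos hq0]
      exact mul_le_mul_of_nonneg_left (hPδ i) hq0.le
    have h2 : |((C (p * D) : ℤ[X]).coeff i : ℝ)| ≤ q * (A * W) + W := by
      rw [coeff_C]
      split_ifs
      · exact hp
      · simp only [Int.cast_zero, abs_zero]; positivity
    rw [hQ, coeff_sub]
    push_cast only [Int.cast_sub]
    refine (abs_sub _ _).trans ?_
    have h3 : W ≤ q * W := le_mul_of_one_le_left (by linarith) hqR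
    rw [hB]
    nlinarith
  have hqW : (q : ℝ) * W ≤ Real.exp ((ν - ε / 2) * Λ + ε / 8 * Λ) := by
    rw [Real.exp_add, ← hW]
    exact mul_le_mul_of_nonneg_right hqU (by linarith)
  refine ⟨hνε, by
    have : 0 ≤ 16 / ε * (|Real.log B| + 1) := by positivity
    linarith, q, p, hq1, fun i => ?_, ?_⟩
  · rw [← hQ]
    refine (hcoeff i).trans ?_
    have h2 : B * (q * W) ≤ Real.exp (Real.log B) * Real.exp ((ν - ε / 2) * Λ + ε / 8 * Λ) := by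
      rw [Real.exp_log hB0]
      exact mul_le_mul_of_nonneg_left hqW hB0.le
    refine h2.trans ?_
    rw [← Real.exp_add]
    apply Real.exp_le_exp.2
    have h3 := le_abs_self (Real.log B)
    linarith
  · rw [← hQ, hQz, abs_mul, abs_of_pos hD0]
    have h1 : (D : ℝ) * |q * (aeval z P / D) - p| ≤ W * Real.exp ((ν - ε / 2) * Λ - Λ) :=
      mul_le_mul hDδ hqx (abs_nonneg _) (by linarith)
    refine h1.trans ?_
    rw [hW, ← Real.exp_add]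
    apply Real.exp_le_exp.2
    nlinarith

lemma rel_ne_zero (P : ℤ[X]) (hP : 0 < P.natDegree) (q : ℕ) (hq : 1 ≤ q) (a : ℤ) :
    (C (q : ℤ) * P - C a : ℤ[X]) ≠ 0 ∧ (C (q : ℤ) * P - C a : ℤ[X]).natDegree = P.natDegree := by
  have h1 : (C (q : ℤ) * P - C a : ℤ[X]).natDegree = P.natDegree := by
    rw [natDegree_sub_C]
    exact natDegree_C_mul (by exact_mod_cast (by omega : q ≠ 0))
  refine ⟨fun h0 => ?_, h1⟩
  rw [h0, natDegree_zero] at h1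
  omega

/-- **Two numbers** -/
theorem pair_digits (n : ℕ) (κ : ℝ) (hκ : 0 ≤ κ) (ε : ℝ) (hε : 0 < ε) (T c : ℝ) (hc : 0 < c) :
    ∃ K δ : ℝ, 0 < K ∧ 0 < δ ∧ ∀ z w : ℝ, |z| ≤ T → |w| ≤ T →
      (∀ P Q : ℤ[X], P ≠ 0 → Q ≠ 0 → P.natDegree ≤ n → Q.natDegree ≤ n → ∀ H : ℝ, 1 ≤ H →
        (∀ i, |(P.coeff i : ℝ)| ≤ H) → (∀ i, |(Q.coeff i : ℝ)| ≤ H) →
        c * H ^ (-κ) ≤ max |aeval z P| |aeval w Q|) →
      ∀ (Λ : ℝ) (P Q : ℤ[X]) (D E : ℕ), 0 < P.natDegree → 0 < Q.natDegree →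
        P.natDegree ≤ n → Q.natDegree ≤ n → 1 ≤ D → 1 ≤ E →
        (D : ℝ) ≤ Real.exp (δ * Λ) → (E : ℝ) ≤ Real.exp (δ * Λ) →
        (∀ i, |(P.coeff i : ℝ)| ≤ Real.exp (δ * Λ)) → (∀ i, |(Q.coeff i : ℝ)| ≤ Real.exp (δ * Λ)) →
        ¬ (Small (1 / (κ + 1) - ε) K Λ (aeval z P / D) ∧
          Small (1 / (κ + 1) - ε) K Λ (aeval w Q / E)) := by
  obtain ⟨ν, hν⟩ : ∃ ν : ℝ, ν = 1 / (κ + 1) := ⟨_, rfl⟩
  have hν1 : ν ≤ 1 := by rw [hν, div_le_one (by linarith)]; linarith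
  have hνκ : ν * (κ + 1) = 1 := by rw [hν]; field_simp
  rw [← hν]
  obtain ⟨K₀, hK₀, h⟩ := near_of_small n T ν ε hν1 hε
  have hlc := abs_nonneg (Real.log c)
  refine ⟨K₀ + 16 / ε * (|Real.log c| + 1), ε / 8, by positivity, by positivity,
    fun z w hz hw hm Λ P Q D E hP0 hQ0 hPn hQn hD hE hDδ hEδ hPδ hQδ hcon => ?_⟩
  have hpos : 0 ≤ 16 / ε * (|Real.log c| + 1) := by positivity
  obtain ⟨hνε, hKΛ, q, p, hq1, hq2, hq3⟩ := h _ (by linarith) Λ z hz P D hPn hD hDδ hPδ hcon.1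
  obtain ⟨-, -, q', p', hq1', hq2', hq3'⟩ := h _ (by linarith) Λ w hw Q E hQn hE hEδ hQδ hcon.2
  have hΛ : 16 / ε * (|Real.log c| + 1) ≤ 2 * Λ := by linarith
  have hΛ2 : |Real.log c| + 1 ≤ ε / 8 * Λ := by
    rw [div_mul_eq_mul_div, div_le_iff₀ hε] at hΛ
    linarith
  have hΛ0 : 0 < Λ := by
    have : 0 < ε / 8 * Λ := by linarith
    by_contra hcon
    push Not at hcon
    have := mul_nonpos_of_nonneg_of_nonpos (by linarith : 0 ≤ ε / 8) hcon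
    linarith
  obtain ⟨U, hU⟩ : ∃ U : ℝ, U = (ν - ε / 4) * Λ := ⟨_, rfl⟩
  rw [← hU] at hq2 hq3 hq2' hq3'
  have hU0 : 0 ≤ U := by rw [hU]; exact mul_nonneg (by linarith) hΛ0.le
  obtain ⟨h1, h2⟩ := rel_ne_zero P hP0 q hq1 (p * D)
  obtain ⟨h1', h2'⟩ := rel_ne_zero Q hQ0 q' hq1' (p' * E)
  have h3 := hm _ _ h1 h1' (h2 ▸ hPn) (h2' ▸ hQn) (Real.exp U) (Real.one_le_exp hU0) hq2 hq2'
  have h4 : c * Real.exp U ^ (-κ) ≤ Real.exp (U - Λ) := h3.trans (max_le hq3 hq3')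
  rw [← Real.exp_mul] at h4
  obtain ⟨lc, hlc'⟩ : ∃ lc, lc = Real.log c := ⟨_, rfl⟩
  have h5 : c = Real.exp lc := by rw [hlc', Real.exp_log hc]
  rw [← hlc'] at hΛ2
  rw [h5, ← Real.exp_add, Real.exp_le_exp] at h4
  have h6 := neg_abs_le lc
  have h6' := abs_nonneg lc
  have h7 : (κ + 1) * U = Λ - (κ + 1) * (ε / 4) * Λ := by
    rw [hU]; linear_combination Λ * hνκ
  have h8 : ε / 4 * Λ ≤ (κ + 1) * (ε / 4) * Λ := by
    apply mul_le_mul_of_nonneg_right _ hΛ0.le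
    nlinarith
  nlinarith

end Pool.Agent.V1139.DC
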