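import Pool.Agent.V1139.DC.FormsLin

/-!
# The results on linear forms for numbers `y_1, …, y_s`

Author: helper39.
-/

set_option autoImplicit false

namespace Pool.Agent.V1139.DC

open Finset
open Pool.Agent.W472.AC (Meas)
open Pool.Agent.Results.MP_a49cf6_nt.DigitRecurrences (complexity)

/-- `(B + a_1 y_1 + … + a_s y_s) / D` -/
noncomputable def form {s : ℕ} (y : Fin s → ℝ) (B : ℤ) (a : Fin s → ℤ) (D : ℕ) : ℝ :=
  ((B : ℝ) + ∑ j, (a j : ℝ) * y j) / D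

/-- the coefficients and the denominator are at most `H` -/
def Low {s : ℕ} (H : ℝ) (B : ℤ) (a : Fin s → ℤ) (D : ℕ) : Prop :=
  |(B : ℝ)| ≤ H ∧ (∀ j, |(a j : ℝ)| ≤ H) ∧ 1 ≤ D ∧ (D : ℝ) ≤ H

/-- `n` linearly independent forms, each in its own base -/
def Bound {s : ℕ} (y : Fin s → ℝ) (n : ℕ) (ν C : ℝ) : Prop :=
  ∀ (B : Fin n → ℤ) (a : Fin n → Fin s → ℤ) (D : Fin n → ℕ) (H : ℝ), 1 ≤ H →
    LinearIndependent ℤ a → (∀ i, Low H (B i) (a i) (D i)) →
    ∀ b L : Fin n → ℕ, (∀ i, 2 ≤ b i) → ∃ i, ν * (L i * Real.log (b i)) ≤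
      ∑ k, ((complexity (b k) (form y (B k) (a k) (D k)) (L k) : ℝ) + C) * Real.log (b k) +
        C * Real.log H

/-- `n` linearly independent forms at one scale -/
def OneScale {s : ℕ} (y : Fin s → ℝ) (n : ℕ) (ν K δ : ℝ) : Prop :=
  ∀ (Λ : ℝ) (B : Fin n → ℤ) (a : Fin n → Fin s → ℤ) (D : Fin n → ℕ),
    LinearIndependent ℤ a → (∀ i, Low (Real.exp (δ * Λ)) (B i) (a i) (D i)) →
    ∃ i, ¬ Small ν K Λ (form y (B i) (a i) (D i))

/-- The constant `1` is the first number with a measure. -/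
theorem nice_one {m : ℕ} (θ : Fin m → ℝ) (μ c : ℝ) (hμ : 0 ≤ μ) (hc : 0 < c)
    (hθ : Meas (Fin.cons 1 θ : Fin (m + 1) → ℝ) μ c) (r : ℕ) (T : ℝ) (hT : 0 ≤ T)
    (ε : ℝ) (hε : 0 < ε) :
    (∃ C : ℝ, 0 < C ∧ ∀ t : Fin r → ℝ, (∀ k, |t k| ≤ T) →
      Bound (Fin.append θ t) (r + 1) (1 / (μ + 1) - ε) C) ∧
    (∃ K δ : ℝ, 0 < K ∧ 0 < δ ∧ ∀ t : Fin r → ℝ, (∀ k, |t k| ≤ T) →
      OneScale (Fin.append θ t) (r + 1) (1 / ((μ + 1) * (r + 1)) - ε) K δ) := by
  obtain ⟨κ, hκ⟩ : ∃ κ : (Fin (m + 1) → ℤ) × (Fin r → ℤ), κ = (Fin.cons 1 0, 0) := ⟨_, rfl⟩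
  have hκt : ∀ t : Fin r → ℝ, vl (Fin.cons 1 θ : Fin (m + 1) → ℝ) t κ = 1 := by
    intro t
    rw [hκ]
    unfold vl
    simp [Fin.sum_univ_succ]
  -- the vectors
  obtain ⟨f, hf⟩ : ∃ f : ℤ → (Fin (m + r) → ℤ) → (Fin (m + 1) → ℤ) × (Fin r → ℤ),
      f = fun (B : ℤ) (a : Fin (m + r) → ℤ) =>
        (Fin.cons B fun j => a (Fin.castAdd r j), fun k => a (Fin.natAdd m k)) :=
    ⟨_, rfl⟩
  have hfv : ∀ (t : Fin r → ℝ) (B : ℤ) (a : Fin (m + r) → ℤ) (D : ℕ),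
      vl (Fin.cons 1 θ : Fin (m + 1) → ℝ) t (f B a) / D = form (Fin.append θ t) B a D := by
    intro t B a D
    rw [hf]
    unfold vl form
    rw [Fin.sum_univ_succ, Fin.sum_univ_add]
    simp only [Fin.cons_zero, Fin.cons_succ, Fin.append_left, Fin.append_right, mul_one]
    ring
  have hli : ∀ (B : Fin (r + 1) → ℤ) (a : Fin (r + 1) → Fin (m + r) → ℤ), LinearIndependent ℤ a →
      LinearIndependent ℤ (Fin.cons κ (fun i => f (B i) (a i)) :
        Fin (r + 1 + 1) → (Fin (m + 1) → ℤ) × (Fin r → ℤ)) := by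
    intro B a ha
    rw [Fintype.linearIndependent_iff] at ha ⊢
    intro g hg
    rw [Fin.sum_univ_succ] at hg
    simp only [Fin.cons_zero, Fin.cons_succ] at hg
    have h1 : ∀ i : Fin (r + 1), g i.succ = 0 := by
      refine ha (fun i => g i.succ) ?_
      funext j
      rw [Finset.sum_apply, Pi.zero_apply]
      refine Fin.addCases (fun j => ?_) (fun j => ?_) j
      · have h2 := congrFun (congrArg Prod.fst hg) j.succ
        rw [Prod.fst_add, Prod.fst_sum, Pi.add_apply, Finset.sum_apply, hκ, hf] at h2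
        simpa using h2
      · have h2 := congrFun (congrArg Prod.snd hg) j
        rw [Prod.snd_add, Prod.snd_sum, Pi.add_apply, Finset.sum_apply, hκ, hf] at h2
        simpa using h2
    intro i
    refine Fin.cases ?_ h1 i
    simp only [h1, zero_smul, Finset.sum_const_zero, add_zero] at hg
    have h2 := congrFun (congrArg Prod.fst hg) 0
    rw [hκ] at h2
    simpa using h2
  have hb1 : ∀ (H : ℝ) (B : ℤ) (a : Fin (m + r) → ℤ) (D : ℕ), Low H B a D →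
      ∀ j, |((f B a).1 j : ℝ)| ≤ H := by
    intro H B a D h j
    rw [hf]
    refine Fin.cases ?_ (fun j => ?_) j
    · simpa using h.1
    · simpa using h.2.1 _
  have hb2 : ∀ (H : ℝ) (B : ℤ) (a : Fin (m + r) → ℤ) (D : ℕ), Low H B a D →
      ∀ j, |((f B a).2 j : ℝ)| ≤ H := by
    intro H B a D h j
    rw [hf]
    exact h.2.1 _
  constructor
  · obtain ⟨C, hC, h⟩ := forms_linear _ μ c hμ hc hθ r κ T hT ε hε
    refine ⟨C, hC, fun t ht B a D H hH ha hlow b L hb => ?_⟩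
    obtain ⟨i, hi⟩ := h t ht (hκt t) (fun i => f (B i) (a i)) D H hH (hli B a ha)
      (fun i => hb1 H _ _ _ (hlow i)) (fun i => hb2 H _ _ _ (hlow i)) (fun i => (hlow i).2.2.1)
      (fun i => (hlow i).2.2.2) b hb L
    simp only [hfv] at hi
    exact ⟨i, hi⟩
  · obtain ⟨K, δ, hK, hδ, h⟩ := forms_scale _ μ c hμ hc hθ r κ T hT ε hε
    refine ⟨K, δ, hK, hδ, fun t ht Λ B a D ha hlow => ?_⟩
    obtain ⟨i, hi⟩ := h t ht (hκt t) Λ (fun i => f (B i) (a i)) D (hli B a ha)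
      (fun i => hb1 _ _ _ _ (hlow i)) (fun i => hb2 _ _ _ _ (hlow i)) (fun i => (hlow i).2.2.1)
      (fun i => (hlow i).2.2.2)
    rw [hfv] at hi
    exact ⟨i, hi⟩

/-- The constant `1` is one of the eliminated numbers. -/
theorem nice_elim {m : ℕ} (θ : Fin (m + 1) → ℝ) (μ c : ℝ) (hμ : 0 ≤ μ) (hc : 0 < c)
    (hθ : Meas θ μ c) (r : ℕ) (T : ℝ) (hT : 1 ≤ T) (ε : ℝ) (hε : 0 < ε) :
    (∃ C : ℝ, 0 < C ∧ ∀ t : Fin r → ℝ, (∀ k, |t k| ≤ T) →
      Bound (Fin.append θ t) (r + 2) (1 / (μ + 1) - ε) C) ∧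
    (∃ K δ : ℝ, 0 < K ∧ 0 < δ ∧ ∀ t : Fin r → ℝ, (∀ k, |t k| ≤ T) →
      OneScale (Fin.append θ t) (r + 2) (1 / ((μ + 1) * (r + 2)) - ε) K δ) := by
  obtain ⟨κ, hκ⟩ : ∃ κ : (Fin (m + 1) → ℤ) × (Fin (r + 1) → ℤ), κ = (0, Fin.cons 1 0) := ⟨_, rfl⟩
  obtain ⟨t', ht'⟩ : ∃ t' : (Fin r → ℝ) → Fin (r + 1) → ℝ,
      t' = fun (t : Fin r → ℝ) => (Fin.cons 1 t : Fin (r + 1) → ℝ) := ⟨_, rfl⟩
  have ht'T : ∀ t : Fin r → ℝ, (∀ k, |t k| ≤ T) → ∀ k, |t' t k| ≤ T := by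
    intro t ht k
    rw [ht']
    refine Fin.cases ?_ (fun k => ?_) k
    · simpa using hT
    · simpa using ht k
  have hκt : ∀ t : Fin r → ℝ, vl θ (t' t) κ = 1 := by
    intro t
    rw [hκ, ht']
    unfold vl
    simp [Fin.sum_univ_succ]
  obtain ⟨f, hf⟩ : ∃ f : ℤ → (Fin (m + 1 + r) → ℤ) → (Fin (m + 1) → ℤ) × (Fin (r + 1) → ℤ),
      f = fun (B : ℤ) (a : Fin (m + 1 + r) → ℤ) =>
        (fun j => a (Fin.castAdd r j), Fin.cons B fun k => a (Fin.natAdd (m + 1) k)) :=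
    ⟨_, rfl⟩
  have hfv : ∀ (t : Fin r → ℝ) (B : ℤ) (a : Fin (m + 1 + r) → ℤ) (D : ℕ),
      vl θ (t' t) (f B a) / D = form (Fin.append θ t) B a D := by
    intro t B a D
    have e : ∑ j, (a j : ℝ) * Fin.append θ t j = (∑ j, (a (Fin.castAdd r j) : ℝ) * θ j) +
        ∑ k, (a (Fin.natAdd (m + 1) k) : ℝ) * t k := by
      rw [Fin.sum_univ_add]
      simp only [Fin.append_left, Fin.append_right]
    rw [hf, ht']
    unfold vl form
    rw [e, Fin.sum_univ_succ (n := r)]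
    simp only [Fin.cons_zero, Fin.cons_succ, mul_one]
    ring
  have hli : ∀ (B : Fin (r + 1 + 1) → ℤ) (a : Fin (r + 1 + 1) → Fin (m + 1 + r) → ℤ),
      LinearIndependent ℤ a → LinearIndependent ℤ (Fin.cons κ (fun i => f (B i) (a i)) :
        Fin (r + 1 + 1 + 1) → (Fin (m + 1) → ℤ) × (Fin (r + 1) → ℤ)) := by
    intro B a ha
    rw [Fintype.linearIndependent_iff] at ha ⊢
    intro g hg
    rw [Fin.sum_univ_succ] at hg
    simp only [Fin.cons_zero, Fin.cons_succ] at hg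
    have h1 : ∀ i : Fin (r + 1 + 1), g i.succ = 0 := by
      refine ha (fun i => g i.succ) ?_
      funext j
      rw [Finset.sum_apply, Pi.zero_apply]
      refine Fin.addCases (fun j => ?_) (fun j => ?_) j
      · have h2 := congrFun (congrArg Prod.fst hg) j
        rw [Prod.fst_add, Prod.fst_sum, Pi.add_apply, Finset.sum_apply, hκ, hf] at h2
        simpa using h2
      · have h2 := congrFun (congrArg Prod.snd hg) j.succ
        rw [Prod.snd_add, Prod.snd_sum, Pi.add_apply, Finset.sum_apply, hκ, hf] at h2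
        simpa using h2
    intro i
    refine Fin.cases ?_ h1 i
    simp only [h1, zero_smul, Finset.sum_const_zero, add_zero] at hg
    have h2 := congrFun (congrArg Prod.snd hg) 0
    rw [hκ] at h2
    simpa using h2
  have hb1 : ∀ (H : ℝ) (B : ℤ) (a : Fin (m + 1 + r) → ℤ) (D : ℕ), Low H B a D →
      ∀ j, |((f B a).1 j : ℝ)| ≤ H := by
    intro H B a D h j
    rw [hf]
    exact h.2.1 _
  have hb2 : ∀ (H : ℝ) (B : ℤ) (a : Fin (m + 1 + r) → ℤ) (D : ℕ), Low H B a D →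
      ∀ j, |((f B a).2 j : ℝ)| ≤ H := by
    intro H B a D h j
    rw [hf]
    refine Fin.cases ?_ (fun j => ?_) j
    · simpa using h.1
    · simpa using h.2.1 _
  constructor
  · obtain ⟨C, hC, h⟩ := forms_linear θ μ c hμ hc hθ (r + 1) κ T (by linarith) ε hε
    refine ⟨C, hC, fun t ht B a D H hH ha hlow b L hb => ?_⟩
    obtain ⟨i, hi⟩ := h (t' t) (ht'T t ht) (hκt t) (fun i => f (B i) (a i)) D H hH (hli B a ha)
      (fun i => hb1 H _ _ _ (hlow i)) (fun i => hb2 H _ _ _ (hlow i)) (fun i => (hlow i).2.2.1)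
      (fun i => (hlow i).2.2.2) b hb L
    simp only [hfv] at hi
    exact ⟨i, hi⟩
  · obtain ⟨K, δ, hK, hδ, h⟩ := forms_scale θ μ c hμ hc hθ (r + 1) κ T (by linarith) ε hε
    refine ⟨K, δ, hK, hδ, fun t ht Λ B a D ha hlow => ?_⟩
    obtain ⟨i, hi⟩ := h (t' t) (ht'T t ht) (hκt t) Λ (fun i => f (B i) (a i)) D (hli B a ha)
      (fun i => hb1 _ _ _ _ (hlow i)) (fun i => hb2 _ _ _ _ (hlow i)) (fun i => (hlow i).2.2.1)
      (fun i => (hlow i).2.2.2)
    rw [hfv] at hi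
    have e : ((r : ℝ) + 2) = (((r + 1 : ℕ) : ℝ) + 1) := by push_cast; ring
    rw [e]
    exact ⟨i, hi⟩

/-- two forms at one scale are proportional -/
theorem two_scale {s : ℕ} (y : Fin s → ℝ) (ν K δ : ℝ) (h : OneScale y 2 ν K δ) :
    ∀ (Λ : ℝ) (B B' : ℤ) (a a' : Fin s → ℤ) (D D' : ℕ), Low (Real.exp (δ * Λ)) B a D →
      Low (Real.exp (δ * Λ)) B' a' D' → Small ν K Λ (form y B a D) →
      Small ν K Λ (form y B' a' D') → ∀ i j, a i * a' j = a j * a' i := by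
  intro Λ B B' a a' D D' h1 h2 h3 h4 i j
  by_contra hne
  obtain ⟨k, hk⟩ := h Λ ![B, B'] ![a, a'] ![D, D'] (by
    rw [LinearIndependent.pair_iff]
    intro x z hxz
    have e1 := congrFun hxz i
    have e2 := congrFun hxz j
    simp only [Pi.add_apply, Pi.smul_apply, smul_eq_mul, Pi.zero_apply] at e1 e2
    have hd : a i * a' j - a j * a' i ≠ 0 := sub_ne_zero.2 hne
    have f1 : x * (a i * a' j - a j * a' i) = 0 := by linear_combination a' j * e1 - a' i * e2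
    have f2 : z * (a i * a' j - a j * a' i) = 0 := by linear_combination a i * e2 - a j * e1
    exact ⟨(mul_eq_zero.1 f1).resolve_right hd, (mul_eq_zero.1 f2).resolve_right hd⟩) (by
    intro k
    fin_cases k
    · exact h1
    · exact h2)
  fin_cases k
  · exact hk h3
  · exact hk h4

end Pool.Agent.V1139.DC
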