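import Pool.Agent.V1139.DC.Pair

/-!
# Integer polynomials which are small at one number have a common irrational zero

Author: helper39.
-/

set_option autoImplicit false

namespace Pool.Agent.V1139.DC

open Polynomial Finset

/-- Mahler measure of an integer polynomial -/
noncomputable def MM (Q : ℤ[X]) : ℝ := (Q.map (Int.castRingHom ℂ)).mahlerMeasure

lemma MM_mul (P Q : ℤ[X]) : MM (P * Q) = MM P * MM Q := by
  unfold MM; rw [Polynomial.map_mul, mahlerMeasure_mul]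

lemma one_le_MM (Q : ℤ[X]) (hQ : Q ≠ 0) : 1 ≤ MM Q := by
  have hinj : Function.Injective (Int.castRingHom ℂ) := Int.cast_injective
  refine one_le_mahlerMeasure_of_one_le_norm_leadingCoeff ?_
  rw [leadingCoeff_map_of_injective hinj, eq_intCast, Complex.norm_intCast]
  exact_mod_cast Int.one_le_abs (leadingCoeff_ne_zero.2 hQ)

lemma coeff_le_MM (Q : ℤ[X]) (n : ℕ) (hQ : Q.natDegree ≤ n) (i : ℕ) :
    |(Q.coeff i : ℝ)| ≤ 2 ^ n * MM Q := by
  have hinj : Function.Injective (Int.castRingHom ℂ) := Int.cast_injective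
  have h := norm_coeff_le_choose_mul_mahlerMeasure i (Q.map (Int.castRingHom ℂ))
  rw [coeff_map, eq_intCast, Complex.norm_intCast, natDegree_map_eq_of_injective hinj] at h
  refine h.trans ?_
  have h1 : ((Q.natDegree.choose i : ℕ) : ℝ) ≤ 2 ^ n := by
    have h2 : Q.natDegree.choose i ≤ 2 ^ Q.natDegree := Nat.choose_le_two_pow _ _
    have h3 : 2 ^ Q.natDegree ≤ 2 ^ n := Nat.pow_le_pow_right (by norm_num) hQ
    exact_mod_cast h2.trans h3
  exact mul_le_mul_of_nonneg_right h1 (mahlerMeasure_nonneg _)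

lemma MM_le (Q : ℤ[X]) (n : ℕ) (hQ : Q.natDegree ≤ n) (Y : ℝ)
    (hY : ∀ i, |(Q.coeff i : ℝ)| ≤ Y) : MM Q ≤ (n + 1) * Y := by
  have hinj : Function.Injective (Int.castRingHom ℂ) := Int.cast_injective
  refine (mahlerMeasure_le_sum_norm_coeff _).trans ?_
  rw [sum_over_range' _ (fun i => by simp) (n + 1) (by
    rw [natDegree_map_eq_of_injective hinj]; omega)]
  calc ∑ a ∈ range (n + 1), ‖(Q.map (Int.castRingHom ℂ)).coeff a‖
      ≤ ∑ _a ∈ range (n + 1), Y := by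
        refine Finset.sum_le_sum fun i _ => ?_
        rw [coeff_map, eq_intCast, Complex.norm_intCast]
        exact hY i
    _ = (n + 1) * Y := by
        rw [Finset.sum_const, Finset.card_range, nsmul_eq_mul]; push_cast; ring

/-- the linear polynomial of a rational number -/
noncomputable def lin (r : ℚ) : ℤ[X] := C (r.den : ℤ) * X - C r.num

lemma lin_coeff_one (r : ℚ) : (lin r).coeff 1 = r.den := by
  unfold lin
  rw [coeff_sub, coeff_C_mul, coeff_X_one, coeff_C_of_ne_zero (by norm_num), mul_one, sub_zero]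

lemma lin_coeff_zero (r : ℚ) : (lin r).coeff 0 = -r.num := by
  unfold lin
  rw [coeff_sub, coeff_C_mul, coeff_X_zero, coeff_C_zero, mul_zero, zero_sub]

lemma lin_natDegree (r : ℚ) : (lin r).natDegree = 1 := by
  unfold lin
  rw [natDegree_sub_C]
  exact natDegree_C_mul_X _ (by exact_mod_cast r.den_nz)

lemma lin_ne_zero (r : ℚ) : lin r ≠ 0 := by
  intro h
  have := lin_natDegree r
  rw [h, natDegree_zero] at this
  exact zero_ne_one this

lemma lin_aeval (z : ℝ) (r : ℚ) : aeval z (lin r) = ((-r.num : ℤ) : ℝ) + ((r.den : ℤ) : ℝ) * z := by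
  unfold lin
  rw [map_sub, map_mul, aeval_C, aeval_X, aeval_C]
  simp only [algebraMap_int_eq, eq_intCast]
  push_cast
  ring

lemma lin_MM (r : ℚ) : MM (lin r) = max ((r.den : ℤ) : ℝ) |((-r.num : ℤ) : ℝ)| := by
  unfold MM lin
  have hd : ((r.den : ℤ) : ℂ) ≠ 0 := by exact_mod_cast r.den_nz
  have h1 : (C (r.den : ℤ) * X - C r.num : ℤ[X]).map (Int.castRingHom ℂ) =
      C ((r.den : ℤ) : ℂ) * X + C (((-r.num : ℤ)) : ℂ) := by
    rw [Polynomial.map_sub, Polynomial.map_mul, Polynomial.map_C, Polynomial.map_X,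
      Polynomial.map_C]
    simp only [eq_intCast]
    rw [Int.cast_neg, C_neg, sub_eq_add_neg]
  rw [h1, mahlerMeasure_C_mul_X_add_C hd, Complex.norm_intCast, Complex.norm_intCast,
    abs_of_nonneg (by positivity : (0 : ℝ) ≤ ((r.den : ℤ) : ℝ))]

lemma lin_primitive (r : ℚ) : (lin r).IsPrimitive := by
  intro c hc
  rw [C_dvd_iff_dvd_coeff] at hc
  have h1 := hc 1
  have h0 := hc 0
  rw [lin_coeff_one] at h1
  rw [lin_coeff_zero, dvd_neg] at h0
  have h2 : c.natAbs ∣ r.den := by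
    have := Int.natAbs_dvd_natAbs.2 h1
    simpa using this
  have h3 : c.natAbs ∣ r.num.natAbs := Int.natAbs_dvd_natAbs.2 h0
  have h4 := Nat.dvd_gcd h3 h2
  rw [r.reduced] at h4
  rw [Int.isUnit_iff_natAbs_eq]
  exact Nat.dvd_one.1 h4

lemma lin_dvd (r : ℚ) (Q : ℤ[X]) (h : aeval (r : ℂ) Q = 0) : lin r ∣ Q := by
  have h1 : aeval r Q = 0 := by
    have h2 : aeval (algebraMap ℚ ℂ r) Q = algebraMap ℚ ℂ (aeval r Q) :=
      aeval_algebraMap_apply ℂ r Q
    have h3 : algebraMap ℚ ℂ (aeval r Q) = 0 := by rw [← h2]; exact h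
    exact (map_eq_zero _).1 h3
  refine (lin_primitive r).dvd_of_fraction_map_dvd_fraction_map (K := ℚ) ?_
  have h4 : (X - C r) ∣ Q.map (algebraMap ℤ ℚ) := by
    rw [dvd_iff_isRoot, IsRoot.def, eval_map, ← aeval_def]
    exact h1
  have hd : (r.den : ℚ) ≠ 0 := by exact_mod_cast r.den_nz
  have h5 : (lin r).map (algebraMap ℤ ℚ) = C (r.den : ℚ) * (X - C r) := by
    unfold lin
    rw [Polynomial.map_sub, Polynomial.map_mul, Polynomial.map_C, Polynomial.map_X,
      Polynomial.map_C, mul_sub, ← C_mul]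
    have h6 : (r.den : ℚ) * r = r.num := by rw [mul_comm]; exact Rat.mul_den_eq_num r
    rw [h6]
    simp
  rw [h5]
  exact (isUnit_C.2 hd.isUnit).mul_left_dvd.2 h4

/-- **Common zeros** -/
theorem absorb (z μ c : ℝ) (hμ : 1 ≤ μ) (hc : 0 < c)
    (hz : ∀ a b : ℤ, (a ≠ 0 ∨ b ≠ 0) → ∀ H : ℝ, 1 ≤ H → |(a : ℝ)| ≤ H → |(b : ℝ)| ≤ H →
      c ≤ H ^ (μ - 1) * |a + b * z|) (n : ℕ) :
    ∃ C : ℝ, 0 < C ∧ ∀ (S : Set ℤ[X]) (X ε : ℝ), 1 ≤ X → (∀ Q ∈ S, Q.natDegree ≤ n) →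
      (∀ Q ∈ S, MM Q ≤ X) → (∀ Q ∈ S, |aeval z Q| ≤ ε) → (∃ Q ∈ S, Q ≠ 0) →
      (∀ ρ : ℂ, (∀ Q ∈ S, aeval ρ Q = 0) → ∃ r : ℚ, ρ = r) →
      1 ≤ C * (X ^ (max μ (2 * n) - 1) * ε) := by
  induction n with
  | zero =>
    refine ⟨1, one_pos, fun S X ε hX hdeg hM hval hne _ => ?_⟩
    obtain ⟨Q, hQ, hQ0⟩ := hne
    have h1 : 1 ≤ ε := (one_le_of_const z Q hQ0 (by have := hdeg Q hQ; omega)).trans (hval Q hQ)
    rw [one_mul]
    have h2 : (1 : ℝ) ≤ X ^ (max μ (2 * ((0 : ℕ) : ℝ)) - 1) :=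
      Real.one_le_rpow hX (by linarith [le_max_left μ (2 * ((0 : ℕ) : ℝ))])
    exact one_le_mul_of_one_le_of_one_le h2 h1
  | succ n ih =>
    obtain ⟨C₁, hC₁, h₁⟩ := ih
    obtain ⟨T, hT⟩ : ∃ T : ℝ, T = max 1 |z| := ⟨_, rfl⟩
    obtain ⟨C₂, hC₂, h₂⟩ := family (n + 1) T (by rw [hT]; exact le_max_left _ _)
    obtain ⟨s, hs⟩ : ∃ s : ℝ, s = 2 ^ (n + 1) := ⟨_, rfl⟩
    have hs1 : 1 ≤ s := by rw [hs]; exact one_le_pow₀ (by norm_num)
    refine ⟨max (C₂ * s ^ (2 * (n + 1) - 1)) (C₁ / c), by positivity, ?_⟩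
    intro S X ε hX hdeg hM hval hne hrat
    have hX0 : 0 < X := by linarith
    obtain ⟨Q0, hQ0, hQ0ne⟩ := hne
    have hε0 : 0 ≤ ε := (abs_nonneg _).trans (hval Q0 hQ0)
    obtain ⟨p', hp'⟩ : ∃ p' : ℝ, p' = max μ (2 * ((n + 1 : ℕ) : ℝ)) := ⟨_, rfl⟩
    rw [← hp']
    have hbase : 0 ≤ X ^ (p' - 1) * ε := by positivity
    by_cases hcom : ∃ ρ : ℂ, ∀ Q ∈ S, aeval ρ Q = 0
    · obtain ⟨ρ, hρ⟩ := hcom
      obtain ⟨r, hr⟩ := hrat ρ hρ
      rw [hr] at hρ
      obtain ⟨h, hh⟩ : ∃ h : ℝ, h = MM (lin r) := ⟨_, rfl⟩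
      have hh1 : 1 ≤ h := by rw [hh]; exact one_le_MM _ (lin_ne_zero r)
      have hh0 : 0 < h := by linarith
      obtain ⟨v, hv⟩ : ∃ v : ℝ, v = |aeval z (lin r)| := ⟨_, rfl⟩
      have hvb : c ≤ h ^ (μ - 1) * v := by
        rw [hv, lin_aeval, hh, lin_MM]
        refine hz _ _ (Or.inr (by exact_mod_cast r.den_nz)) _ ?_ (le_max_right _ _) ?_
        · rw [← lin_MM, ← hh]; exact hh1
        · rw [abs_of_nonneg (by positivity : (0 : ℝ) ≤ ((r.den : ℤ) : ℝ))]
          exact le_max_left _ _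
      have hhp : 0 < h ^ (μ - 1) := by positivity
      have hv0 : 0 < v := by
        by_contra hcon
        push Not at hcon
        have := mul_nonpos_of_nonneg_of_nonpos hhp.le hcon
        linarith
      obtain ⟨S', hS'⟩ : ∃ S' : Set ℤ[X], S' = {Q' | lin r * Q' ∈ S} := ⟨_, rfl⟩
      have hmem : ∀ Q', Q' ∈ S' ↔ lin r * Q' ∈ S := by intro Q'; rw [hS']; rfl
      obtain ⟨Q0', hQ0'⟩ := lin_dvd r Q0 (hρ Q0 hQ0)
      have hQ0'ne : Q0' ≠ 0 := by rintro rfl; rw [mul_zero] at hQ0'; exact hQ0ne hQ0'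
      have hMS : ∀ Q' ∈ S', MM Q' ≤ X / h := by
        intro Q' hQ'
        rw [le_div_iff₀ hh0]
        have h3 := hM _ ((hmem Q').1 hQ')
        rw [MM_mul, ← hh] at h3
        linarith
      have hX' : 1 ≤ X / h := (one_le_MM Q0' hQ0'ne).trans (hMS Q0' ((hmem Q0').2 (hQ0' ▸ hQ0)))
      have key := h₁ S' (X / h) (ε * h ^ (μ - 1) / c) hX' (by
          intro Q' hQ'
          rcases eq_or_ne Q' 0 with h3 | h3
          · rw [h3, natDegree_zero]; exact Nat.zero_le _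
          · have h4 := hdeg _ ((hmem Q').1 hQ')
            rw [natDegree_mul (lin_ne_zero r) h3, lin_natDegree] at h4
            omega) hMS (by
          intro Q' hQ'
          have h3 := hval _ ((hmem Q').1 hQ')
          rw [map_mul, abs_mul, ← hv] at h3
          rw [le_div_iff₀ hc]
          have h4 : |aeval z Q'| * c ≤ |aeval z Q'| * (h ^ (μ - 1) * v) :=
            mul_le_mul_of_nonneg_left hvb (abs_nonneg _)
          have h5 : |aeval z Q'| * (h ^ (μ - 1) * v) = (v * |aeval z Q'|) * h ^ (μ - 1) := by ring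
          have h6 : (v * |aeval z Q'|) * h ^ (μ - 1) ≤ ε * h ^ (μ - 1) :=
            mul_le_mul_of_nonneg_right h3 hhp.le
          linarith) ⟨Q0', (hmem Q0').2 (hQ0' ▸ hQ0), hQ0'ne⟩ (by
          intro ρ' hρ'
          refine hrat ρ' fun Q hQ => ?_
          obtain ⟨Q', hQ'⟩ := lin_dvd r Q (hρ Q hQ)
          rw [hQ', map_mul, hρ' Q' ((hmem Q').2 (hQ' ▸ hQ)), mul_zero])
      refine key.trans ?_
      obtain ⟨p, hp⟩ : ∃ p : ℝ, p = max μ (2 * (n : ℝ)) := ⟨_, rfl⟩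
      rw [← hp]
      have hpp' : p ≤ p' := by
        rw [hp, hp']
        apply max_le_max le_rfl
        push_cast
        linarith
      have hμp : μ ≤ p := by rw [hp]; exact le_max_left _ _
      have e1 : (X / h) ^ (p - 1) * (ε * h ^ (μ - 1) / c) =
          (1 / c) * ((X ^ (p - 1) * ε) * (h ^ (μ - 1) / h ^ (p - 1))) := by
        rw [Real.div_rpow hX0.le hh0.le]
        field_simp
      have e2 : h ^ (μ - 1) / h ^ (p - 1) ≤ 1 := by
        rw [div_le_one (by positivity)]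
        exact Real.rpow_le_rpow_of_exponent_le hh1 (by linarith)
      have e3 : X ^ (p - 1) ≤ X ^ (p' - 1) := Real.rpow_le_rpow_of_exponent_le hX (by linarith)
      rw [e1]
      calc C₁ * (1 / c * (X ^ (p - 1) * ε * (h ^ (μ - 1) / h ^ (p - 1))))
          ≤ C₁ * (1 / c * (X ^ (p' - 1) * ε * 1)) := by gcongr
        _ = (C₁ / c) * (X ^ (p' - 1) * ε) := by ring
        _ ≤ _ := mul_le_mul_of_nonneg_right (le_max_right _ _) hbase
    · push Not at hcom
      have key := h₂ z (by rw [hT]; exact le_max_right _ _) S (s * X) ε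
        (one_le_mul_of_one_le_of_one_le hs1 hX) hdeg (fun Q hQ i => by
          refine (coeff_le_MM Q (n + 1) (hdeg Q hQ) i).trans ?_
          rw [hs]
          exact mul_le_mul_of_nonneg_left (hM Q hQ) (by positivity)) hval hcom
      refine key.trans ?_
      rw [mul_pow]
      have e3 : X ^ (2 * (n + 1) - 1) ≤ X ^ (p' - 1) := by
        rw [← Real.rpow_natCast]
        apply Real.rpow_le_rpow_of_exponent_le hX
        have : (2 * ((n + 1 : ℕ) : ℝ)) ≤ p' := by rw [hp']; exact le_max_right _ _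
        have e4 : ((2 * (n + 1) - 1 : ℕ) : ℝ) = 2 * ((n + 1 : ℕ) : ℝ) - 1 := by
          rw [Nat.cast_sub (by omega)]; push_cast; ring
        rw [e4]
        linarith
      calc C₂ * (s ^ (2 * (n + 1) - 1) * X ^ (2 * (n + 1) - 1) * ε)
          ≤ C₂ * (s ^ (2 * (n + 1) - 1) * X ^ (p' - 1) * ε) := by gcongr
        _ = (C₂ * s ^ (2 * (n + 1) - 1)) * (X ^ (p' - 1) * ε) := by ring
        _ ≤ _ := mul_le_mul_of_nonneg_right (le_max_left _ _) hbase

end Pool.Agent.V1139.DC
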