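import Pool.Agent.V1139.DC.Absorb
import Pool.Agent.V1189.DG.Approx

/-!
# Polynomials in one number whose digits have small linear complexity

Author: helper39.  The rational approximations come from `Pool.Agent.V1189.DG.exists_approx` (helper89).
-/

set_option autoImplicit false

namespace Pool.Agent.V1139.DC

open Polynomial Finset
open Pool.Agent.W47.JL (err err_ge)
open Pool.Agent.Results.MP_a49cf6_nt.DigitRecurrences (digit Recurrence complexity F F_linear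
  attained)
open Pool.Agent.V1189.DG (exists_approx)

/-- `x` has small linear complexity at the scale `Λ`, in some base which is not too large -/
def Small (ν K Λ x : ℝ) : Prop :=
  ∃ b L : ℕ, 2 ≤ b ∧ K * Real.log b ≤ Λ ∧ Λ ≤ L * Real.log b ∧
    complexity b x L * Real.log b < ν * Λ

/-- a number of small linear complexity at the scale `Λ` has a good rational approximation -/
theorem approx_of_small (ν ε : ℝ) (hν : ν ≤ 1) (hε : 0 < ε) :
    ∃ K₀ : ℝ, 0 < K₀ ∧ ∀ K : ℝ, K₀ ≤ K → ∀ Λ x : ℝ, Small (ν - ε) K Λ x →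
      0 < ν - ε ∧ K / 2 ≤ Λ ∧ ∃ (q : ℕ) (p : ℤ), 1 ≤ q ∧ (q : ℝ) ≤ Real.exp ((ν - ε / 2) * Λ) ∧
        |q * x - p| ≤ Real.exp ((ν - ε / 2) * Λ - Λ) := by
  obtain ⟨K₁, hK₁0, hK₁⟩ := F_linear 17 (ε / 4) (by norm_num) (by linarith)
  refine ⟨4 * K₁ / ε + 1, by positivity, fun K hK Λ x hx => ?_⟩
  obtain ⟨b, L, hb, hKb, hLb, hN⟩ := hx
  have hlb2 : Real.log 2 ≤ Real.log b :=
    Real.log_le_log (by norm_num) (by exact_mod_cast hb)
  have hl2 := Real.log_two_gt_d9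
  have hlb : 0 < Real.log b := by linarith
  have hK0 : 0 < K := lt_of_lt_of_le (by positivity) hK
  have hΛ : 0 < Λ := lt_of_lt_of_le (by positivity) hKb
  obtain ⟨N, hNd⟩ : ∃ N, N = complexity b x L := ⟨_, rfl⟩
  rw [← hNd] at hN
  have hN0 : (0 : ℝ) ≤ N * Real.log b := by positivity
  have hν0 : 0 < ν - ε := by
    by_contra hcon
    push Not at hcon
    have := mul_nonpos_of_nonpos_of_nonneg hcon hΛ.le
    linarith
  have hK2 : K / 2 ≤ Λ := by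
    refine le_trans ?_ hKb
    nlinarith
  refine ⟨hν0, hK2, ?_⟩
  have hKK : K₁ * Real.log b ≤ ε / 4 * Λ := by
    have h1 : 4 * K₁ / ε ≤ K := by linarith
    rw [div_le_iff₀ hε] at h1
    have h2 : (4 * K₁) * Real.log b ≤ (K * ε) * Real.log b :=
      mul_le_mul_of_nonneg_right h1 hlb.le
    have h3 : (K * Real.log b) * ε ≤ Λ * ε := mul_le_mul_of_nonneg_right hKb hε.le
    nlinarith
  have hF : F 17 N * Real.log b ≤ (ν - ε / 2) * Λ := by
    have h1 : F 17 N * Real.log b ≤ ((1 + ε / 4) * N + K₁) * Real.log b :=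
      mul_le_mul_of_nonneg_right (hK₁ N) hlb.le
    have h2 : ((1 + ε / 4) * N + K₁) * Real.log b =
        (1 + ε / 4) * (N * Real.log b) + K₁ * Real.log b := by ring
    have h3 : (1 + ε / 4) * (N * Real.log b) ≤ (1 + ε / 4) * ((ν - ε) * Λ) :=
      mul_le_mul_of_nonneg_left hN.le (by linarith)
    have h4 : ε / 4 * ((ν - ε) * Λ) ≤ ε / 4 * Λ := by
      apply mul_le_mul_of_nonneg_left _ (by linarith)
      nlinarith
    nlinarith
  have hFe : (N : ℝ) + 15 * err N + 1 ≤ F 17 N := by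
    have h1 := err_ge N
    have h2 : F 17 N = N + 17 * err N := rfl
    rw [h2]; linarith
  have hU : ((N : ℝ) + 15 * err N) * Real.log b ≤ (ν - ε / 2) * Λ := by
    refine le_trans ?_ hF
    exact mul_le_mul_of_nonneg_right (by linarith) hlb.le
  obtain ⟨c, hc⟩ := attained b x L
  rw [← hNd] at hc
  rcases exists_approx b hb x L N c hc with h | ⟨q, p, hq1, hq2, hq3⟩
  · exfalso
    have h1 : (L : ℝ) * Real.log b ≤ F 17 N * Real.log b :=
      mul_le_mul_of_nonneg_right (by linarith) hlb.le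
    nlinarith
  · refine ⟨q, p, hq1, ?_, hq3.trans (Real.exp_le_exp.2 (by linarith))⟩
    have hq0 : (0 : ℝ) < q := by exact_mod_cast hq1
    rw [← Real.log_le_iff_le_exp hq0]
    linarith

lemma abs_aeval_le (z : ℝ) (P : ℤ[X]) (n : ℕ) (hP : P.natDegree ≤ n) (Y : ℝ)
    (hY : ∀ i, |(P.coeff i : ℝ)| ≤ Y) : |aeval z P| ≤ ((n + 1) * (max 1 |z|) ^ n) * Y := by
  have hY0 : 0 ≤ Y := (abs_nonneg _).trans (hY 0)
  rw [aeval_eq_sum_range' (show P.natDegree < n + 1 by omega)]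
  calc |∑ i ∈ range (n + 1), P.coeff i • z ^ i| ≤ ∑ i ∈ range (n + 1), |P.coeff i • z ^ i| :=
        Finset.abs_sum_le_sum_abs _ _
    _ ≤ ∑ _i ∈ range (n + 1), Y * (max 1 |z|) ^ n := by
        refine Finset.sum_le_sum fun i hi => ?_
        rw [mem_range] at hi
        rw [zsmul_eq_mul, abs_mul, abs_pow]
        have h1 : |z| ^ i ≤ (max 1 |z|) ^ n :=
          (pow_le_pow_left₀ (abs_nonneg _) (le_max_right 1 _) i).trans
            (pow_le_pow_right₀ (le_max_left _ _) (by omega))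
        exact mul_le_mul (hY i) h1 (by positivity) hY0
    _ = _ := by
        rw [Finset.sum_const, Finset.card_range, nsmul_eq_mul]; push_cast; ring

lemma I_irrational : ¬ ∃ r : ℚ, Complex.I = r := by
  rintro ⟨r, hr⟩
  have := congrArg Complex.im hr
  rw [Complex.I_im, Complex.ratCast_im] at this
  exact one_ne_zero this

/-- the near relations at one scale -/
def Near (z : ℝ) (n : ℕ) (X ε : ℝ) : Set ℤ[X] :=
  {Q | Q ≠ 0 ∧ Q.natDegree ≤ n ∧ MM Q ≤ X ∧ |aeval z Q| ≤ ε}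

lemma X_sq_add_one_ne : (X ^ 2 + 1 : ℤ[X]) ≠ 0 := by
  intro h
  have := congrArg (eval 1) h
  simp at this

lemma X_sq_add_one_deg : (X ^ 2 + 1 : ℤ[X]).natDegree ≤ 2 := by
  compute_degree

lemma X_sq_add_one_I : aeval Complex.I (X ^ 2 + 1 : ℤ[X]) = 0 := by
  simp

/-- **Near relations have a common irrational zero.** -/
theorem near (z μ c : ℝ) (hμ : 1 ≤ μ) (hc : 0 < c)
    (hz : ∀ a b : ℤ, (a ≠ 0 ∨ b ≠ 0) → ∀ H : ℝ, 1 ≤ H → |(a : ℝ)| ≤ H → |(b : ℝ)| ≤ H →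
      c ≤ H ^ (μ - 1) * |a + b * z|) (n : ℕ) :
    ∃ c' : ℝ, 0 < c' ∧ ∀ X ε : ℝ, 1 ≤ X → ε < c' * X ^ (-(max μ (2 * n) - 1)) →
      ∃ ξ : ℂ, (¬ ∃ r : ℚ, ξ = r) ∧ (∃ G : ℤ[X], G ≠ 0 ∧ G.natDegree ≤ max n 2 ∧ aeval ξ G = 0) ∧
        ∀ Q ∈ Near z n X ε, aeval ξ Q = 0 := by
  obtain ⟨C, hC, h⟩ := absorb z μ c hμ hc hz n
  refine ⟨1 / C, by positivity, fun X ε hX hε => ?_⟩
  have hX0 : 0 < X := by linarith
  by_cases hne : (Near z n X ε).Nonempty
  · obtain ⟨Q0, hQ0⟩ := hne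
    by_contra hcon
    push Not at hcon
    have h1 := h (Near z n X ε) X ε hX (fun Q hQ => hQ.2.1) (fun Q hQ => hQ.2.2.1)
      (fun Q hQ => hQ.2.2.2) ⟨Q0, hQ0, hQ0.1⟩ (fun ρ hρ => by
        by_contra hρr
        push Not at hρr
        obtain ⟨Q, hQ, hQ'⟩ := hcon ρ hρr ⟨Q0, hQ0.1, hQ0.2.1.trans (le_max_left _ _), hρ Q0 hQ0⟩
        exact hQ' (hρ Q hQ))
    have hp : 0 < X ^ (max μ (2 * n) - 1) := by positivity
    have h2 : C * (X ^ (max μ (2 * n) - 1) * ε) <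
        C * (X ^ (max μ (2 * n) - 1) * (1 / C * X ^ (-(max μ (2 * n) - 1)))) :=
      mul_lt_mul_of_pos_left (mul_lt_mul_of_pos_left hε hp) hC
    have h3 : C * (X ^ (max μ (2 * n) - 1) * (1 / C * X ^ (-(max μ (2 * n) - 1)))) = 1 := by
      rw [Real.rpow_neg hX0.le]
      field_simp
    linarith
  · exact ⟨Complex.I, I_irrational, ⟨Polynomial.X ^ 2 + 1, X_sq_add_one_ne,
      X_sq_add_one_deg.trans (le_max_right _ _), X_sq_add_one_I⟩, fun Q hQ => absurd ⟨Q, hQ⟩ hne⟩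

/-- **Digits of polynomials in `z`, each in its own base.** -/
theorem digits (z μ c : ℝ) (hμ : 1 ≤ μ) (hc : 0 < c)
    (hz : ∀ a b : ℤ, (a ≠ 0 ∨ b ≠ 0) → ∀ H : ℝ, 1 ≤ H → |(a : ℝ)| ≤ H → |(b : ℝ)| ≤ H →
      c ≤ H ^ (μ - 1) * |a + b * z|) (n : ℕ) (ε : ℝ) (hε : 0 < ε) :
    ∃ K δ : ℝ, 0 < K ∧ 0 < δ ∧ ∀ Λ : ℝ, ∃ ξ : ℂ, (¬ ∃ r : ℚ, ξ = r) ∧
      (∃ G : ℤ[X], G ≠ 0 ∧ G.natDegree ≤ max n 2 ∧ aeval ξ G = 0) ∧
      ∀ (P : ℤ[X]) (D : ℕ), P.natDegree ≤ n → 1 ≤ D → (D : ℝ) ≤ Real.exp (δ * Λ) →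
        (∀ i, |(P.coeff i : ℝ)| ≤ Real.exp (δ * Λ)) →
        Small (1 / max μ (2 * n) - ε) K Λ (aeval z P / D) → ∃ r : ℚ, aeval ξ P = r := by
  obtain ⟨c', hc', h⟩ := near z μ c hμ hc hz n
  obtain ⟨M, hM⟩ : ∃ M : ℝ, M = max μ (2 * n) := ⟨_, rfl⟩
  rw [← hM] at h ⊢
  have hM1 : 1 ≤ M := by rw [hM]; exact hμ.trans (le_max_left _ _)
  obtain ⟨ν, hν⟩ : ∃ ν : ℝ, ν = 1 / M := ⟨_, rfl⟩
  have hνM : M * ν = 1 := by rw [hν]; field_simp
  have hν1 : ν ≤ 1 := by rw [hν, div_le_one (by linarith)]; exact hM1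
  rw [← hν]
  obtain ⟨K₀, hK₀, hK⟩ := approx_of_small ν ε hν1 hε
  obtain ⟨A, hA⟩ : ∃ A : ℝ, A = ((n + 1) * (max 1 |z|) ^ n) := ⟨_, rfl⟩
  have hA0 : 0 < A := by rw [hA]; positivity
  obtain ⟨B, hB⟩ : ∃ B : ℝ, B = ((n : ℝ) + 1) * (2 + A) := ⟨_, rfl⟩
  have hB0 : 0 < B := by rw [hB]; positivity
  obtain ⟨K, hKd⟩ : ∃ K : ℝ, K = K₀ + 16 / ε * (|Real.log B| + |Real.log c'| + 1) := ⟨_, rfl⟩
  have hlB := abs_nonneg (Real.log B)
  have hlc := abs_nonneg (Real.log c')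
  have hKK₀ : K₀ ≤ K := by
    rw [hKd]
    have : 0 ≤ 16 / ε * (|Real.log B| + |Real.log c'| + 1) := by positivity
    linarith
  have hK0 : 0 < K := by linarith
  refine ⟨K, ε / 8, hK0, by positivity, fun Λ => ?_⟩
  by_cases hex : ∃ x : ℝ, Small (ν - ε) K Λ x
  swap
  · exact ⟨Complex.I, I_irrational, ⟨X ^ 2 + 1, X_sq_add_one_ne,
      X_sq_add_one_deg.trans (le_max_right _ _), X_sq_add_one_I⟩,
      fun P D _ _ _ _ hx => absurd ⟨_, hx⟩ hex⟩
  obtain ⟨x₀, hx₀⟩ := hex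
  obtain ⟨hνε, hKΛ, -⟩ := hK K hKK₀ Λ x₀ hx₀
  have hΛ : 16 / ε * (|Real.log B| + |Real.log c'| + 1) ≤ 2 * Λ := by linarith
  have hΛ2 : |Real.log B| + |Real.log c'| + 1 ≤ ε / 8 * Λ := by
    rw [div_mul_eq_mul_div, div_le_iff₀ hε] at hΛ
    linarith
  have hΛ0 : 0 < Λ := by
    have : 0 < ε / 8 * Λ := by linarith
    by_contra hcon
    push Not at hcon
    have := mul_nonpos_of_nonneg_of_nonpos (by linarith : 0 ≤ ε / 8) hcon
    linarith
  obtain ⟨U, hU⟩ : ∃ U : ℝ, U = (ν - ε / 4) * Λ := ⟨_, rfl⟩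
  have hU0 : 0 ≤ U := by rw [hU]; exact mul_nonneg (by linarith) hΛ0.le
  obtain ⟨ξ, hξ1, hξ2, hξ3⟩ := h (Real.exp U) (Real.exp (U - Λ)) (Real.one_le_exp hU0) (by
    rw [← Real.exp_mul]
    obtain ⟨lc, hlc'⟩ : ∃ lc, lc = Real.log c' := ⟨_, rfl⟩
    have h1 : c' = Real.exp lc := by rw [hlc', Real.exp_log hc']
    rw [← hlc'] at hΛ2
    rw [h1]
    rw [← Real.exp_add]
    apply Real.exp_lt_exp.2
    have h2 := neg_abs_le lc
    have h2' := abs_nonneg lc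
    have h3 : U * (-(M - 1)) = U - M * U := by ring
    have h4 : M * U = Λ - M * (ε / 4) * Λ := by
      rw [hU]; linear_combination Λ * hνM
    have h5 : ε / 4 * Λ ≤ M * (ε / 4) * Λ := by
      apply mul_le_mul_of_nonneg_right _ hΛ0.le
      nlinarith
    rw [h3, h4]
    linarith)
  refine ⟨ξ, hξ1, hξ2, fun P D hPn hD1 hDδ hPδ hx => ?_⟩
  obtain ⟨-, -, q, p, hq1, hqU, hqx⟩ := hK K hKK₀ Λ _ hx
  obtain ⟨W, hW⟩ : ∃ W : ℝ, W = Real.exp (ε / 8 * Λ) := ⟨_, rfl⟩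
  rw [← hW] at hDδ hPδ
  have hW1 : 1 ≤ W := by rw [hW]; exact Real.one_le_exp (by positivity)
  have hD0 : (0 : ℝ) < D := by exact_mod_cast hD1
  have hq0 : (0 : ℝ) < q := by exact_mod_cast hq1
  have hqR : (1 : ℝ) ≤ q := by exact_mod_cast hq1
  have hPz := abs_aeval_le z P n hPn W hPδ
  rw [← hA] at hPz
  by_cases hP0 : P.natDegree = 0
  · refine ⟨(P.coeff 0 : ℤ), ?_⟩
    rw [Polynomial.eq_C_of_natDegree_eq_zero hP0, aeval_C]
    simp
  obtain ⟨Q, hQ⟩ : ∃ Q : ℤ[X], Q = C (q : ℤ) * P - C (p * D) := ⟨_, rfl⟩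
  have hQdeg : Q.natDegree ≤ n := by
    rw [hQ, natDegree_sub_C]
    exact (natDegree_C_mul_le _ _).trans hPn
  have hQne : Q ≠ 0 := by
    intro h0
    have h1 : Q.natDegree = P.natDegree := by
      rw [hQ, natDegree_sub_C]
      exact natDegree_C_mul (by exact_mod_cast (by omega : q ≠ 0))
    rw [h0, natDegree_zero] at h1
    exact hP0 h1.symm
  have hQz : aeval z Q = D * (q * (aeval z P / D) - p) := by
    rw [hQ, map_sub, map_mul, aeval_C, aeval_C]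
    simp only [algebraMap_int_eq, eq_intCast]
    push_cast
    field_simp
  have hexp1 : Real.exp ((ν - ε / 2) * Λ - Λ) ≤ 1 := by
    rw [Real.exp_le_one_iff]
    nlinarith
  have hp : |((p * D : ℤ) : ℝ)| ≤ q * (A * W) + W := by
    push_cast
    have h1 : (p : ℝ) * D = q * aeval z P - D * (q * (aeval z P / D) - p) := by
      field_simp
      ring
    rw [h1]
    refine (abs_sub _ _).trans ?_
    rw [abs_mul, abs_mul, abs_of_pos hq0, abs_of_pos hD0]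
    have h2 : (D : ℝ) * |q * (aeval z P / D) - p| ≤ W * 1 :=
      mul_le_mul hDδ (hqx.trans hexp1) (abs_nonneg _) (by linarith)
    have h3 : (q : ℝ) * |aeval z P| ≤ q * (A * W) := mul_le_mul_of_nonneg_left hPz hq0.le
    linarith
  have hcoeff : ∀ i, |(Q.coeff i : ℝ)| ≤ (2 + A) * (q * W) := by
    intro i
    have h1 : |((C (q : ℤ) * P : ℤ[X]).coeff i : ℝ)| ≤ q * W := by
      rw [coeff_C_mul]
      push_cast
      rw [abs_mul, abs_of_pos hq0]
      exact mul_le_mul_of_nonneg_left (hPδ i) hq0.le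
    have h2 : |((C (p * D) : ℤ[X]).coeff i : ℝ)| ≤ q * (A * W) + W := by
      rw [coeff_C]
      split_ifs
      · exact hp
      · simp only [Int.cast_zero, abs_zero]; positivity
    rw [hQ, coeff_sub]
    push_cast only [Int.cast_sub]
    refine (abs_sub _ _).trans ?_
    have h3 : W ≤ q * W := le_mul_of_one_le_left (by linarith) hqR
    nlinarith
  have hqW : (q : ℝ) * W ≤ Real.exp ((ν - ε / 2) * Λ + ε / 8 * Λ) := by
    rw [Real.exp_add, ← hW]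
    exact mul_le_mul_of_nonneg_right hqU (by linarith)
  have hMM : MM Q ≤ Real.exp U := by
    refine (MM_le Q n hQdeg _ hcoeff).trans ?_
    have h1 : ((n : ℝ) + 1) * ((2 + A) * (q * W)) = B * (q * W) := by rw [hB]; ring
    rw [h1]
    have h2 : B * (q * W) ≤ Real.exp (Real.log B) * Real.exp ((ν - ε / 2) * Λ + ε / 8 * Λ) := by
      rw [Real.exp_log hB0]
      exact mul_le_mul_of_nonneg_left hqW hB0.le
    refine h2.trans ?_
    rw [← Real.exp_add]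
    apply Real.exp_le_exp.2
    have h3 := le_abs_self (Real.log B)
    rw [hU]
    linarith
  have hval : |aeval z Q| ≤ Real.exp (U - Λ) := by
    rw [hQz, abs_mul, abs_of_pos hD0]
    have h1 : (D : ℝ) * |q * (aeval z P / D) - p| ≤ W * Real.exp ((ν - ε / 2) * Λ - Λ) :=
      mul_le_mul hDδ hqx (abs_nonneg _) (by linarith)
    refine h1.trans ?_
    rw [hW, ← Real.exp_add]
    apply Real.exp_le_exp.2
    rw [hU]
    nlinarith
  have hroot := hξ3 Q ⟨hQne, hQdeg, hMM, hval⟩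
  rw [hQ, map_sub, map_mul, aeval_C, aeval_C] at hroot
  simp only [algebraMap_int_eq, eq_intCast] at hroot
  refine ⟨(p * D : ℤ) / (q : ℚ), ?_⟩
  have hqC : (q : ℂ) ≠ 0 := by exact_mod_cast (by omega : q ≠ 0)
  push_cast at hroot ⊢
  rw [eq_div_iff hqC]
  linear_combination hroot

end Pool.Agent.V1139.DC
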