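import Pool.Agent.TH550.NRZ.Elim
import Pool.Agent.V1139.DC.Digits

/-!
# Linear forms in numbers with a measure and arbitrary numbers: digits, each form in its own base

Author: helper39.  The elimination of the arbitrary numbers is `Pool.Agent.TH550.NRZ.product_ineq`, the
rational approximations come from `Pool.Agent.V1189.DG.exists_approx` (helper89).
-/

set_option autoImplicit false

namespace Pool.Agent.V1139.DC

open Finset
open Pool.Agent.W472.AC (Meas)
open Pool.Agent.W47.JL (err err_ge)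
open Pool.Agent.Results.MP_a49cf6_nt.DigitRecurrences (digit Recurrence complexity F F_linear
  attained)
open Pool.Agent.V1189.DG (exists_approx)

/-- value of the form `∑ a_j θ_j + ∑ e_k t_k` -/
noncomputable def vl {m r : ℕ} (θ : Fin (m + 1) → ℝ) (t : Fin r → ℝ)
    (v : (Fin (m + 1) → ℤ) × (Fin r → ℤ)) : ℝ :=
  (∑ j, (v.1 j : ℝ) * θ j) + ∑ j, (v.2 j : ℝ) * t j

lemma vl_comb {m r : ℕ} (θ : Fin (m + 1) → ℝ) (t : Fin r → ℝ) (x y : ℤ)
    (v w : (Fin (m + 1) → ℤ) × (Fin r → ℤ)) :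
    vl θ t (x • v - y • w) = x * vl θ t v - y * vl θ t w := by
  unfold vl
  simp only [Prod.fst_sub, Prod.snd_sub, Prod.smul_fst, Prod.smul_snd, Pi.sub_apply, Pi.smul_apply,
    smul_eq_mul]
  push_cast
  simp only [sub_mul, Finset.sum_sub_distrib, mul_add, Finset.mul_sum]
  have e1 : ∀ j, (x : ℝ) * (v.1 j : ℝ) * θ j = x * ((v.1 j : ℝ) * θ j) := fun j => by ring
  have e2 : ∀ j, (y : ℝ) * (w.1 j : ℝ) * θ j = y * ((w.1 j : ℝ) * θ j) := fun j => by ring
  have e3 : ∀ j, (x : ℝ) * (v.2 j : ℝ) * t j = x * ((v.2 j : ℝ) * t j) := fun j => by ring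
  have e4 : ∀ j, (y : ℝ) * (w.2 j : ℝ) * t j = y * ((w.2 j : ℝ) * t j) := fun j => by ring
  simp only [e1, e2, e3, e4]
  ring

lemma vl_le {m r : ℕ} (θ : Fin (m + 1) → ℝ) (t : Fin r → ℝ)
    (v : (Fin (m + 1) → ℤ) × (Fin r → ℤ)) (T H : ℝ) (ht : ∀ k, |t k| ≤ T)
    (h1 : ∀ j, |(v.1 j : ℝ)| ≤ H) (h2 : ∀ j, |(v.2 j : ℝ)| ≤ H) (hH : 0 ≤ H) :
    |vl θ t v| ≤ H * ((∑ j, |θ j|) + r * T) := by
  unfold vl
  refine (abs_add_le _ _).trans ?_
  rw [mul_add]
  refine add_le_add ?_ ?_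
  · rw [Finset.mul_sum]
    refine (Finset.abs_sum_le_sum_abs _ _).trans (Finset.sum_le_sum fun j _ => ?_)
    rw [abs_mul]
    exact mul_le_mul_of_nonneg_right (h1 j) (abs_nonneg _)
  · refine (Finset.abs_sum_le_sum_abs _ _).trans ?_
    calc ∑ j, |(v.2 j : ℝ) * t j| ≤ ∑ _j : Fin r, H * T := by
          refine Finset.sum_le_sum fun j _ => ?_
          rw [abs_mul]
          exact mul_le_mul (h2 j) (ht j) (abs_nonneg _) hH
      _ = H * (r * T) := by
          rw [Finset.sum_const, Finset.card_univ, Fintype.card_fin, nsmul_eq_mul]; ring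

/-- **Forms, each in its own base.** -/
theorem forms {m : ℕ} (θ : Fin (m + 1) → ℝ) (μ c : ℝ) (hμ : 0 ≤ μ) (hc : 0 < c)
    (hθ : Meas θ μ c) (r : ℕ) (κ : (Fin (m + 1) → ℤ) × (Fin r → ℤ)) (T : ℝ) (hT : 0 ≤ T) :
    ∃ C : ℝ, 0 < C ∧ ∀ t : Fin r → ℝ, (∀ k, |t k| ≤ T) → vl θ t κ = 1 →
      ∀ (v : Fin (r + 1) → (Fin (m + 1) → ℤ) × (Fin r → ℤ)) (D : Fin (r + 1) → ℕ) (H : ℝ), 1 ≤ H →
      LinearIndependent ℤ (Fin.cons κ v : Fin (r + 1 + 1) → (Fin (m + 1) → ℤ) × (Fin r → ℤ)) →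
      (∀ i j, |((v i).1 j : ℝ)| ≤ H) → (∀ i j, |((v i).2 j : ℝ)| ≤ H) →
      (∀ i, 1 ≤ D i) → (∀ i, (D i : ℝ) ≤ H) → ∀ b : Fin (r + 1) → ℕ, (∀ i, 2 ≤ b i) →
      ∀ L : Fin (r + 1) → ℕ, ∃ i, L i * Real.log (b i) ≤
        (μ + 1) * ∑ k, F 17 (complexity (b k) (vl θ t (v k) / D k) (L k)) * Real.log (b k) +
          C * (1 + Real.log H) := by
  classical
  obtain ⟨c', hc', hprod⟩ := Pool.Agent.TH550.NRZ.product_ineq θ μ c hμ hc hθ r
  -- constants
  obtain ⟨κm, hκm⟩ : ∃ κm : ℝ, κm = (∑ j, |(κ.1 j : ℝ)|) + ∑ j, |(κ.2 j : ℝ)| := ⟨_, rfl⟩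
  have hκ1 : ∀ j, |(κ.1 j : ℝ)| ≤ κm := by
    intro j
    have h1 := Finset.single_le_sum (f := fun j => |(κ.1 j : ℝ)|) (fun i _ => abs_nonneg _)
      (mem_univ j)
    have h2 : 0 ≤ ∑ j, |(κ.2 j : ℝ)| := Finset.sum_nonneg fun _ _ => abs_nonneg _
    rw [hκm]; linarith
  have hκ2 : ∀ j, |(κ.2 j : ℝ)| ≤ κm := by
    intro j
    have h1 := Finset.single_le_sum (f := fun j => |(κ.2 j : ℝ)|) (fun i _ => abs_nonneg _)
      (mem_univ j)
    have h2 : 0 ≤ ∑ j, |(κ.1 j : ℝ)| := Finset.sum_nonneg fun _ _ => abs_nonneg _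
    rw [hκm]; linarith
  have hκ0 : 0 ≤ κm := by
    rw [hκm]
    exact add_nonneg (Finset.sum_nonneg fun _ _ => abs_nonneg _)
      (Finset.sum_nonneg fun _ _ => abs_nonneg _)
  obtain ⟨S, hS⟩ : ∃ S : ℝ, S = (∑ j, |θ j|) + r * T := ⟨_, rfl⟩
  have hS0 : 0 ≤ S := by
    rw [hS]
    exact add_nonneg (Finset.sum_nonneg fun _ _ => abs_nonneg _) (by positivity)
  obtain ⟨A, hA⟩ : ∃ A : ℝ, A = 1 + κm * (S + 1) := ⟨_, rfl⟩
  have hA1 : 1 ≤ A := by rw [hA]; nlinarith [mul_nonneg hκ0 (by linarith : 0 ≤ S + 1)]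
  have hA0 : 0 < A := by linarith
  have hlA : 0 ≤ Real.log A := Real.log_nonneg hA1
  obtain ⟨C, hC⟩ : ∃ C : ℝ, C = (μ + 1) * ((r + 1) * (Real.log A + 1)) +
    |Real.log ((r + 1) / c')| + 1 := ⟨_, rfl⟩
  have hC0 : 0 < C := by
    rw [hC]
    have := abs_nonneg (Real.log (((r : ℝ) + 1) / c'))
    have : 0 ≤ (μ + 1) * ((r + 1) * (Real.log A + 1)) := by positivity
    linarith
  refine ⟨C, hC0, fun t ht hκt v D H hH hli hv1 hv2 hD1 hDH b hb L => ?_⟩
  have hH0 : 0 < H := by linarith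
  have hlH : 0 ≤ Real.log H := Real.log_nonneg hH
  obtain ⟨x, hx⟩ : ∃ x : Fin (r + 1) → ℝ, x = fun k => vl θ t (v k) / D k := ⟨_, rfl⟩
  have hxk : ∀ k, vl θ t (v k) / D k = x k := fun k => by rw [hx]
  simp only [hxk]
  obtain ⟨N, hN⟩ : ∃ N : Fin (r + 1) → ℕ, N = fun k => complexity (b k) (x k) (L k) := ⟨_, rfl⟩
  have hNk : ∀ k, complexity (b k) (x k) (L k) = N k := fun k => by rw [hN]
  simp only [hNk]
  have hlb : ∀ j, 0 < Real.log (b j) := fun j =>
    Real.log_pos (by exact_mod_cast (by have := hb j; omega : 1 < b j))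
  have hF : ∀ j, (N j : ℝ) + 15 * err (N j) + 1 ≤ F 17 (N j) := by
    intro j
    have h1 := err_ge (N j)
    have h2 : F 17 (N j) = N j + 17 * err (N j) := rfl
    rw [h2]; linarith
  have hF0 : ∀ j, 0 ≤ F 17 (N j) := by
    intro j
    have h1 := err_ge (N j)
    have h2 := hF j
    have h3 : (0 : ℝ) ≤ N j := Nat.cast_nonneg _
    linarith
  have hterm : ∀ j, 0 ≤ F 17 (N j) * Real.log (b j) := fun j => mul_nonneg (hF0 j) (hlb j).le
  have hsum0 : 0 ≤ ∑ i, F 17 (N i) * Real.log (b i) := Finset.sum_nonneg fun i _ => hterm i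
  by_cases hcase : ∃ j, (L j : ℝ) ≤ N j + 15 * err (N j) + 1
  · obtain ⟨j, hj⟩ := hcase
    refine ⟨j, ?_⟩
    have h1 : L j * Real.log (b j) ≤ F 17 (N j) * Real.log (b j) :=
      mul_le_mul_of_nonneg_right (hj.trans (hF j)) (hlb j).le
    have h2 : F 17 (N j) * Real.log (b j) ≤ ∑ i, F 17 (N i) * Real.log (b i) :=
      Finset.single_le_sum (f := fun i => F 17 (N i) * Real.log (b i)) (fun i _ => hterm i)
        (mem_univ j)
    have h3 : 0 ≤ C * (1 + Real.log H) := by positivity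
    nlinarith
  push Not at hcase
  have hex : ∀ j, ∃ (q : ℕ) (p : ℤ), 1 ≤ q ∧
      Real.log q ≤ (N j + 15 * err (N j)) * Real.log (b j) ∧
      |q * x j - p| ≤ Real.exp ((N j + 15 * err (N j)) * Real.log (b j) - L j * Real.log (b j)) := by
    intro j
    obtain ⟨c, hc⟩ := attained (b j) (x j) (L j)
    rw [hNk] at hc
    rcases exists_approx (b j) (hb j) (x j) (L j) (N j) c hc with h | h
    · exact absurd h (not_le.2 (hcase j))
    · exact h
  choose q p hq1 hqlog hqx using hex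
  have hqpos : ∀ j, (0 : ℝ) < q j := fun j => by exact_mod_cast hq1 j
  obtain ⟨U, hU⟩ : ∃ U : Fin (r + 1) → ℝ, U = fun j => (N j + 15 * err (N j)) * Real.log (b j) :=
    ⟨_, rfl⟩
  have hUj : ∀ j, (N j + 15 * err (N j)) * Real.log (b j) = U j := fun j => by rw [hU]
  simp only [hUj] at hqlog hqx
  have hU0 : ∀ j, 0 ≤ U j := by
    intro j
    rw [← hUj]
    have h1 := err_ge (N j)
    have h3 : (0 : ℝ) ≤ N j := Nat.cast_nonneg _
    exact mul_nonneg (by linarith) (hlb j).le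
  have hqU : ∀ j, (q j : ℝ) ≤ Real.exp (U j) := fun j =>
    (Real.log_le_iff_le_exp (hqpos j)).1 (hqlog j)
  have hUF : ∀ j, U j ≤ F 17 (N j) * Real.log (b j) := by
    intro j
    rw [← hUj]
    exact mul_le_mul_of_nonneg_right (by have := hF j; linarith) (hlb j).le
  have hΛU : ∀ j, U j ≤ L j * Real.log (b j) := by
    intro j
    rw [← hUj]
    exact mul_le_mul_of_nonneg_right (by have := hcase j; linarith) (hlb j).le
  -- the relation vectors
  obtain ⟨w, hw⟩ : ∃ w : Fin (r + 1) → (Fin (m + 1) → ℤ) × (Fin r → ℤ),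
      w = fun i => (q i : ℤ) • v i - ((D i : ℤ) * p i) • κ := ⟨_, rfl⟩
  have hwi : ∀ i, w i = (q i : ℤ) • v i - ((D i : ℤ) * p i) • κ := fun i => by rw [hw]
  have hDpos : ∀ i, (0 : ℝ) < D i := fun i => by exact_mod_cast hD1 i
  have hwval : ∀ i, vl θ t (w i) = D i * (q i * x i - p i) := by
    intro i
    rw [hwi, vl_comb, hκt, ← hxk]
    have := (hDpos i).ne'
    push_cast
    field_simp
  have hwli : LinearIndependent ℤ (fun i => ((w i).1, (w i).2)) := by
    rw [Fintype.linearIndependent_iff]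
    intro g hg i
    rw [Fintype.linearIndependent_iff] at hli
    have h1 : ∑ i, g i • w i = 0 := hg
    have h2 := hli (Fin.cons (-∑ i, g i * ((D i : ℤ) * p i)) fun i => g i * q i) (by
      rw [Fin.sum_univ_succ]
      simp only [Fin.cons_zero, Fin.cons_succ]
      rw [← h1]
      simp only [hwi, smul_sub, smul_smul, Finset.sum_sub_distrib, neg_smul, Finset.sum_smul]
      abel) i.succ
    rw [Fin.cons_succ] at h2
    rcases mul_eq_zero.1 h2 with h3 | h3
    · exact h3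
    · have := hq1 i
      omega
  obtain ⟨h, hh⟩ : ∃ h : Fin (r + 1) → ℝ, h = fun i => A * H * Real.exp (U i) := ⟨_, rfl⟩
  have hhi : ∀ i, h i = A * H * Real.exp (U i) := fun i => by rw [hh]
  have hexp1 : ∀ i, 1 ≤ Real.exp (U i) := fun i => Real.one_le_exp (hU0 i)
  have hh1 : ∀ i, 1 ≤ h i := by
    intro i
    rw [hhi]
    exact one_le_mul_of_one_le_of_one_le (one_le_mul_of_one_le_of_one_le hA1 hH) (hexp1 i)
  have hh0 : ∀ i, 0 < h i := fun i => lt_of_lt_of_le one_pos (hh1 i)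
  have hDp : ∀ i, (D i : ℝ) * |(p i : ℝ)| ≤ Real.exp (U i) * H * (S + 1) := by
    intro i
    have h1 : (D i : ℝ) * (p i : ℝ) = q i * vl θ t (v i) - D i * (q i * x i - p i) := by
      rw [← hxk]
      have := (hDpos i).ne'
      field_simp
      ring
    have h2 : |(D i : ℝ) * (p i : ℝ)| ≤ Real.exp (U i) * (H * S) + H * 1 := by
      rw [h1]
      refine (abs_sub _ _).trans (add_le_add ?_ ?_)
      · rw [abs_mul, abs_of_pos (hqpos i)]
        refine mul_le_mul (hqU i) ?_ (abs_nonneg _) (Real.exp_pos _).le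
        rw [hS]
        exact vl_le θ t (v i) T H ht (hv1 i) (hv2 i) hH0.le
      · rw [abs_mul, abs_of_pos (hDpos i)]
        refine mul_le_mul (hDH i) ((hqx i).trans ?_) (abs_nonneg _) hH0.le
        rw [Real.exp_le_one_iff]
        linarith [hΛU i]
    rw [abs_mul, abs_of_pos (hDpos i)] at h2
    have h3 : H * 1 ≤ Real.exp (U i) * H := by nlinarith [hexp1 i]
    nlinarith
  have hbound : ∀ i (y z : ℤ), |(y : ℝ)| ≤ H → |(z : ℝ)| ≤ κm →
      |((((q i : ℤ) * y - (D i : ℤ) * p i * z : ℤ)) : ℝ)| ≤ h i := by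
    intro i y z hy hz
    push_cast
    refine (abs_sub _ _).trans ?_
    rw [abs_mul, abs_of_pos (hqpos i), abs_mul, abs_mul, abs_of_pos (hDpos i)]
    have h1 : (q i : ℝ) * |(y : ℝ)| ≤ Real.exp (U i) * H :=
      mul_le_mul (hqU i) hy (abs_nonneg _) (Real.exp_pos _).le
    have h2 : (D i : ℝ) * |(p i : ℝ)| * |(z : ℝ)| ≤ Real.exp (U i) * H * (S + 1) * κm :=
      mul_le_mul (hDp i) hz (abs_nonneg _) (by positivity)
    rw [hhi, hA]
    nlinarith
  have hprod' := hprod t (fun i => (w i).1) (fun i => (w i).2) hwli h hh1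
    (fun i j => by
      have h1 : (w i).1 j = (q i : ℤ) * (v i).1 j - (D i : ℤ) * p i * κ.1 j := by
        rw [hwi]; simp [smul_eq_mul]
      rw [h1]
      exact hbound i _ _ (hv1 i j) (hκ1 j))
    (fun i j => by
      have h1 : (w i).2 j = (q i : ℤ) * (v i).2 j - (D i : ℤ) * p i * κ.2 j := by
        rw [hwi]; simp [smul_eq_mul]
      rw [h1]
      exact hbound i _ _ (hv2 i j) (hκ2 j))
  -- one of the terms is large
  have hterm2 : ∀ i, |(∑ j, ((w i).1 j : ℝ) * θ j) + ∑ j, ((w i).2 j : ℝ) * t j| / h i ≤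
      Real.exp (-(L i * Real.log (b i))) := by
    intro i
    have h1 : (∑ j, ((w i).1 j : ℝ) * θ j) + ∑ j, ((w i).2 j : ℝ) * t j = vl θ t (w i) := rfl
    rw [h1, hwval, div_le_iff₀ (hh0 i), abs_mul, abs_of_pos (hDpos i), hhi]
    have h2 : (D i : ℝ) * |q i * x i - p i| ≤ H * Real.exp (U i - L i * Real.log (b i)) :=
      mul_le_mul (hDH i) (hqx i) (abs_nonneg _) hH0.le
    refine h2.trans ?_
    rw [Real.exp_sub, Real.exp_neg]
    have h3 : 0 < Real.exp (L i * Real.log (b i)) := Real.exp_pos _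
    have h4 : H * (Real.exp (U i) / Real.exp (L i * Real.log (b i))) =
        (Real.exp (L i * Real.log (b i)))⁻¹ * (1 * H * Real.exp (U i)) := by
      field_simp
    rw [h4]
    gcongr
  have hex2 : ∃ i, c' * ∏ i, h i ^ (-(μ + 1)) ≤ (r + 1) * Real.exp (-(L i * Real.log (b i))) := by
    by_contra hcon
    push Not at hcon
    have h1 : ∑ i, |(∑ j, ((w i).1 j : ℝ) * θ j) + ∑ j, ((w i).2 j : ℝ) * t j| / h i ≤
        ∑ i, Real.exp (-(L i * Real.log (b i))) := Finset.sum_le_sum fun i _ => hterm2 i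
    have h2 : ∑ i : Fin (r + 1), Real.exp (-(L i * Real.log (b i))) <
        ∑ _i : Fin (r + 1), (c' * ∏ i, h i ^ (-(μ + 1))) / (r + 1) := by
      refine Finset.sum_lt_sum_of_nonempty ⟨0, mem_univ _⟩ fun i _ => ?_
      rw [lt_div_iff₀ (by positivity)]
      have := hcon i
      linarith
    rw [Finset.sum_const, Finset.card_univ, Fintype.card_fin, nsmul_eq_mul] at h2
    push_cast at h2
    rw [mul_div_cancel₀ _ (by positivity : ((r : ℝ) + 1) ≠ 0)] at h2
    linarith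
  obtain ⟨i, hi⟩ := hex2
  refine ⟨i, ?_⟩
  have hPpos : 0 < ∏ i, h i ^ (-(μ + 1)) :=
    Finset.prod_pos fun i _ => Real.rpow_pos_of_pos (hh0 i) _
  have h1 := Real.log_le_log (by positivity) hi
  rw [Real.log_mul hc'.ne' hPpos.ne', Real.log_mul (by positivity) (Real.exp_pos _).ne',
    Real.log_exp, Real.log_prod (fun i _ => (Real.rpow_pos_of_pos (hh0 i) _).ne')] at h1
  have h2 : ∀ i, Real.log (h i ^ (-(μ + 1))) = -(μ + 1) * (Real.log A + Real.log H + U i) := by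
    intro i
    rw [Real.log_rpow (hh0 i), hhi, Real.log_mul (by positivity) (Real.exp_pos _).ne',
      Real.log_mul hA0.ne' hH0.ne', Real.log_exp]
  simp only [h2] at h1
  rw [← Finset.mul_sum, Finset.sum_add_distrib, Finset.sum_const, Finset.card_univ,
    Fintype.card_fin, nsmul_eq_mul] at h1
  push_cast at h1
  have h3 : ∑ i, U i ≤ ∑ i, F 17 (N i) * Real.log (b i) :=
    Finset.sum_le_sum fun i _ => hUF i
  have h4 : (μ + 1) * ∑ i, U i ≤ (μ + 1) * ∑ i, F 17 (N i) * Real.log (b i) :=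
    mul_le_mul_of_nonneg_left h3 (by linarith)
  have h5 : Real.log (((r : ℝ) + 1) / c') = Real.log ((r : ℝ) + 1) - Real.log c' :=
    Real.log_div (by positivity) hc'.ne'
  have h6 := le_abs_self (Real.log (((r : ℝ) + 1) / c'))
  have h7 : L i * Real.log (b i) ≤ (μ + 1) * ∑ i, U i +
      ((μ + 1) * ((r + 1) * (Real.log A + Real.log H)) + |Real.log (((r : ℝ) + 1) / c')|) := by
    rw [h5] at h6
    rw [h5]
    nlinarith
  have h8 : (μ + 1) * ((r + 1) * (Real.log A + Real.log H)) + |Real.log (((r : ℝ) + 1) / c')| ≤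
      C * (1 + Real.log H) := by
    have h9 := abs_nonneg (Real.log (((r : ℝ) + 1) / c'))
    have h10 : (μ + 1) * ((r + 1) * (Real.log A + Real.log H)) ≤
        (μ + 1) * ((r + 1) * (Real.log A + 1)) * (1 + Real.log H) := by
      have h11 : 0 ≤ (μ + 1) * ((r : ℝ) + 1) := by positivity
      have h12 : Real.log A + Real.log H ≤ (Real.log A + 1) * (1 + Real.log H) := by nlinarith
      have h13 := mul_le_mul_of_nonneg_left h12 h11
      nlinarith
    have h14 : |Real.log (((r : ℝ) + 1) / c')| ≤ |Real.log (((r : ℝ) + 1) / c')| *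
        (1 + Real.log H) := by nlinarith
    rw [hC]
    nlinarith
  linarith

end Pool.Agent.V1139.DC
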