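import Pool.Agent.V1139.DC.Forms

/-!
# Linear forms and digits: linear inequality, one scale

Author: helper39.
-/

set_option autoImplicit false

namespace Pool.Agent.V1139.DC

open Finset
open Pool.Agent.W472.AC (Meas)
open Pool.Agent.Results.MP_a49cf6_nt.DigitRecurrences (complexity F F_linear)

lemma log_ge (b : ℕ) (hb : 2 ≤ b) : 1 / 2 ≤ Real.log b := by
  have h1 := Real.log_two_gt_d9
  have h2 : Real.log 2 ≤ Real.log b := Real.log_le_log (by norm_num) (by exact_mod_cast hb)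
  linarith

/-- **linear inequality** -/
theorem forms_linear {m : ℕ} (θ : Fin (m + 1) → ℝ) (μ c : ℝ) (hμ : 0 ≤ μ) (hc : 0 < c)
    (hθ : Meas θ μ c) (r : ℕ) (κ : (Fin (m + 1) → ℤ) × (Fin r → ℤ)) (T : ℝ) (hT : 0 ≤ T)
    (ε : ℝ) (hε : 0 < ε) :
    ∃ C : ℝ, 0 < C ∧ ∀ t : Fin r → ℝ, (∀ k, |t k| ≤ T) → vl θ t κ = 1 →
      ∀ (v : Fin (r + 1) → (Fin (m + 1) → ℤ) × (Fin r → ℤ)) (D : Fin (r + 1) → ℕ) (H : ℝ), 1 ≤ H →
      LinearIndependent ℤ (Fin.cons κ v : Fin (r + 1 + 1) → (Fin (m + 1) → ℤ) × (Fin r → ℤ)) →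
      (∀ i j, |((v i).1 j : ℝ)| ≤ H) → (∀ i j, |((v i).2 j : ℝ)| ≤ H) →
      (∀ i, 1 ≤ D i) → (∀ i, (D i : ℝ) ≤ H) → ∀ b : Fin (r + 1) → ℕ, (∀ i, 2 ≤ b i) →
      ∀ L : Fin (r + 1) → ℕ, ∃ i, (1 / (μ + 1) - ε) * (L i * Real.log (b i)) ≤
        ∑ k, ((complexity (b k) (vl θ t (v k) / D k) (L k) : ℝ) + C) * Real.log (b k) +
          C * Real.log H := by
  obtain ⟨C₁, hC₁, h⟩ := forms θ μ c hμ hc hθ r κ T hT
  obtain ⟨K₁, hK₁0, hK₁⟩ := F_linear 17 ε (by norm_num) hε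
  obtain ⟨C, hC⟩ : ∃ C : ℝ, C = K₁ + 2 * C₁ + 1 := ⟨_, rfl⟩
  have hC0 : 0 < C := by rw [hC]; linarith
  refine ⟨C, hC0, fun t ht hκt v D H hH hli hv1 hv2 hD1 hDH b hb L => ?_⟩
  have hlH : 0 ≤ Real.log H := Real.log_nonneg hH
  obtain ⟨i, hi⟩ := h t ht hκt v D H hH hli hv1 hv2 hD1 hDH b hb L
  refine ⟨i, ?_⟩
  have hlb : ∀ j, 1 / 2 ≤ Real.log (b j) := fun j => log_ge _ (hb j)
  have hlb0 : ∀ j, 0 ≤ Real.log (b j) := fun j => by have := hlb j; linarith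
  obtain ⟨S, hS⟩ : ∃ S : ℝ, S = ∑ k, (complexity (b k) (vl θ t (v k) / D k) (L k) : ℝ) *
    Real.log (b k) := ⟨_, rfl⟩
  obtain ⟨B, hB⟩ : ∃ B : ℝ, B = ∑ k, Real.log (b k) := ⟨_, rfl⟩
  have hS0 : 0 ≤ S := by
    rw [hS]; exact Finset.sum_nonneg fun k _ => mul_nonneg (Nat.cast_nonneg _) (hlb0 k)
  have hB1 : 1 / 2 ≤ B := by
    rw [hB]
    exact (hlb 0).trans (Finset.single_le_sum (f := fun k => Real.log (b k))
      (fun k _ => hlb0 k) (mem_univ 0))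
  have h1 : ∑ k, F 17 (complexity (b k) (vl θ t (v k) / D k) (L k)) * Real.log (b k) ≤
      (1 + ε) * S + K₁ * B := by
    rw [hS, hB, Finset.mul_sum, Finset.mul_sum, ← Finset.sum_add_distrib]
    refine Finset.sum_le_sum fun k _ => ?_
    have := mul_le_mul_of_nonneg_right (hK₁ (complexity (b k) (vl θ t (v k) / D k) (L k))) (hlb0 k)
    linarith
  have h2 : ∑ k, ((complexity (b k) (vl θ t (v k) / D k) (L k) : ℝ) + C) * Real.log (b k) =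
      S + C * B := by
    rw [hS, hB, Finset.mul_sum, ← Finset.sum_add_distrib]
    exact Finset.sum_congr rfl fun k _ => by ring
  rw [h2]
  obtain ⟨Λ, hΛ⟩ : ∃ Λ : ℝ, Λ = L i * Real.log (b i) := ⟨_, rfl⟩
  rw [← hΛ] at hi ⊢
  have hΛ0 : 0 ≤ Λ := by rw [hΛ]; exact mul_nonneg (Nat.cast_nonneg _) (hlb0 i)
  have hCB : 0 ≤ C * B := mul_nonneg hC0.le (by linarith)
  have hCH : 0 ≤ C * Real.log H := mul_nonneg hC0.le hlH
  obtain ⟨ν, hν⟩ : ∃ ν : ℝ, ν = 1 / (μ + 1) := ⟨_, rfl⟩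
  rw [← hν]
  rcases le_or_gt (ν - ε) 0 with h3 | h3
  · have : (ν - ε) * Λ ≤ 0 := mul_nonpos_of_nonpos_of_nonneg h3 hΛ0
    linarith
  have hνμ : ν * (μ + 1) = 1 := by rw [hν]; field_simp
  have hν1 : ν ≤ 1 := by
    rw [hν, div_le_one (by linarith)]; linarith
  have hkey : (ν - ε) * (μ + 1) ≤ 1 - ε := by nlinarith
  have hkey0 : 0 ≤ (ν - ε) * (μ + 1) := mul_nonneg h3.le (by linarith)
  have hkey1 : (ν - ε) * (μ + 1) * (1 + ε) ≤ 1 := by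
    have h4 : (1 - ε) * (1 + ε) ≤ 1 := by nlinarith
    have h5 := mul_le_mul_of_nonneg_right hkey (by linarith : 0 ≤ 1 + ε)
    linarith
  have h5 : (ν - ε) * Λ ≤ (ν - ε) * ((μ + 1) * ((1 + ε) * S + K₁ * B) + C₁ * (1 + Real.log H)) := by
    apply mul_le_mul_of_nonneg_left _ h3.le
    have := mul_le_mul_of_nonneg_left h1 (by linarith : 0 ≤ μ + 1)
    linarith
  have h6 : (ν - ε) * ((μ + 1) * ((1 + ε) * S + K₁ * B) + C₁ * (1 + Real.log H)) =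
      ((ν - ε) * (μ + 1) * (1 + ε)) * S + ((ν - ε) * (μ + 1)) * (K₁ * B) +
        (ν - ε) * (C₁ * (1 + Real.log H)) := by ring
  have h7 : ((ν - ε) * (μ + 1) * (1 + ε)) * S ≤ 1 * S :=
    mul_le_mul_of_nonneg_right hkey1 hS0
  have h8 : ((ν - ε) * (μ + 1)) * (K₁ * B) ≤ 1 * (K₁ * B) :=
    mul_le_mul_of_nonneg_right (by linarith) (mul_nonneg hK₁0 (by linarith))
  have h9 : (ν - ε) * (C₁ * (1 + Real.log H)) ≤ 1 * (C₁ * (1 + Real.log H)) :=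
    mul_le_mul_of_nonneg_right (by linarith) (by positivity)
  have h10 : C₁ ≤ 2 * C₁ * B := by nlinarith
  have h11 : C₁ * Real.log H ≤ C * Real.log H := by
    apply mul_le_mul_of_nonneg_right _ hlH
    rw [hC]; linarith
  have h12 : C * B = K₁ * B + 2 * C₁ * B + B := by rw [hC]; ring
  linarith

/-- **one scale** -/
theorem forms_scale {m : ℕ} (θ : Fin (m + 1) → ℝ) (μ c : ℝ) (hμ : 0 ≤ μ) (hc : 0 < c)
    (hθ : Meas θ μ c) (r : ℕ) (κ : (Fin (m + 1) → ℤ) × (Fin r → ℤ)) (T : ℝ) (hT : 0 ≤ T)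
    (ε : ℝ) (hε : 0 < ε) :
    ∃ K δ : ℝ, 0 < K ∧ 0 < δ ∧ ∀ t : Fin r → ℝ, (∀ k, |t k| ≤ T) → vl θ t κ = 1 → ∀ Λ : ℝ,
      ∀ (v : Fin (r + 1) → (Fin (m + 1) → ℤ) × (Fin r → ℤ)) (D : Fin (r + 1) → ℕ),
      LinearIndependent ℤ (Fin.cons κ v : Fin (r + 1 + 1) → (Fin (m + 1) → ℤ) × (Fin r → ℤ)) →
      (∀ i j, |((v i).1 j : ℝ)| ≤ Real.exp (δ * Λ)) → (∀ i j, |((v i).2 j : ℝ)| ≤ Real.exp (δ * Λ)) →
      (∀ i, 1 ≤ D i) → (∀ i, (D i : ℝ) ≤ Real.exp (δ * Λ)) →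
      ∃ i, ¬ Small (1 / ((μ + 1) * (r + 1)) - ε) K Λ (vl θ t (v i) / D i) := by
  obtain ⟨C, hC, h⟩ := forms_linear θ μ c hμ hc hθ r κ T hT (ε / 2) (by linarith)
  obtain ⟨K, hK⟩ : ∃ K : ℝ, K = 8 * C * (r + 1) / ε := ⟨_, rfl⟩
  have hK0 : 0 < K := by rw [hK]; positivity
  refine ⟨K, ε / (8 * C), hK0, by positivity, fun t ht hκt Λ v D hli hv1 hv2 hD1 hDH => ?_⟩
  by_contra hcon
  push Not at hcon
  choose b L hb hKb hLb hN using hcon
  have hlb : ∀ j, 1 / 2 ≤ Real.log (b j) := fun j => log_ge _ (hb j)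
  have hlb0 : ∀ j, 0 < Real.log (b j) := fun j => by have := hlb j; linarith
  have hΛ : 0 < Λ := lt_of_lt_of_le (mul_pos hK0 (hlb0 0)) (hKb 0)
  have hH1 : 1 ≤ Real.exp (ε / (8 * C) * Λ) := Real.one_le_exp (by positivity)
  obtain ⟨i, hi⟩ := h t ht hκt v D (Real.exp (ε / (8 * C) * Λ)) hH1 hli hv1 hv2 hD1 hDH b hb L
  rw [Real.log_exp] at hi
  obtain ⟨ν, hν⟩ : ∃ ν : ℝ, ν = 1 / (μ + 1) := ⟨_, rfl⟩
  have hνr : 1 / ((μ + 1) * (r + 1)) = ν / (r + 1) := by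
    rw [hν, div_div]
  rw [hνr] at hN
  rw [← hν] at hi
  have hr1 : (1 : ℝ) ≤ (r : ℝ) + 1 := by linarith [Nat.cast_nonneg (α := ℝ) r]
  have hsum : ∑ k, ((complexity (b k) (vl θ t (v k) / D k) (L k) : ℝ) + C) * Real.log (b k) ≤
      (r + 1) * ((ν / (r + 1) - ε) * Λ + ε / (8 * (r + 1)) * Λ) := by
    calc ∑ k, ((complexity (b k) (vl θ t (v k) / D k) (L k) : ℝ) + C) * Real.log (b k)
        ≤ ∑ _k : Fin (r + 1), ((ν / (r + 1) - ε) * Λ + ε / (8 * (r + 1)) * Λ) := by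
          refine Finset.sum_le_sum fun k _ => ?_
          have h1 : C * Real.log (b k) ≤ ε / (8 * (r + 1)) * Λ := by
            have h2 := hKb k
            rw [hK, div_mul_eq_mul_div, div_le_iff₀ hε] at h2
            rw [div_mul_eq_mul_div, le_div_iff₀ (by positivity)]
            linarith
          have h3 := (hN k).le
          rw [add_mul]
          linarith
      _ = _ := by
          rw [Finset.sum_const, Finset.card_univ, Fintype.card_fin, nsmul_eq_mul]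
          push_cast
          ring
  have e1 : ((r : ℝ) + 1) * ((ν / (r + 1) - ε) * Λ + ε / (8 * (r + 1)) * Λ) =
      (ν - (r + 1) * ε + ε / 8) * Λ := by
    field_simp
  have e2 : C * (ε / (8 * C) * Λ) = ε / 8 * Λ := by field_simp
  rw [e1] at hsum
  rw [e2] at hi
  have hrε : ε ≤ (r + 1) * ε := by nlinarith
  have hN0 : 0 ≤ (complexity (b i) (vl θ t (v i) / D i) (L i) : ℝ) * Real.log (b i) :=
    mul_nonneg (Nat.cast_nonneg _) (hlb0 i).le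
  have hν0 : 0 < ν / (r + 1) - ε := by
    by_contra hcon
    push Not at hcon
    have := mul_nonpos_of_nonpos_of_nonneg hcon hΛ.le
    have := hN i
    linarith
  have hν1 : 0 < ν - ε / 2 := by
    have : ν / (r + 1) ≤ ν := div_le_self (by rw [hν]; positivity) hr1
    linarith
  have h3 : (ν - ε / 2) * Λ ≤ (ν - ε / 2) * (L i * Real.log (b i)) :=
    mul_le_mul_of_nonneg_left (hLb i) hν1.le
  have h4 : (ν - (r + 1) * ε + ε / 8) * Λ ≤ (ν - ε + ε / 8) * Λ :=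
    mul_le_mul_of_nonneg_right (by linarith) hΛ.le
  have h5 : 0 < ε / 4 * Λ := by positivity
  nlinarith

end Pool.Agent.V1139.DC
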