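import Mathlib

/-!
# Integer polynomials without a common zero which are small at one point

Author: helper39.  The estimate for the resultant is a sharper form (exponent `m + n - 1`) of
`Pool.Agent.TH647.NR.norm_resultant_le`.
-/

set_option autoImplicit false

namespace Pool.Agent.V1139.DC

open Polynomial Matrix Finset

lemma det_le_rows {N : ℕ} (A : Matrix (Fin N) (Fin N) ℂ) (b : Fin N → ℝ)
    (hb : ∀ i j, ‖A i j‖ ≤ b i) : ‖A.det‖ ≤ N.factorial * ∏ i, b i := by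
  classical
  rw [← Matrix.det_transpose, Matrix.det_apply]
  refine (norm_sum_le _ _).trans ?_
  have key : ∀ σ ∈ (univ : Finset (Equiv.Perm (Fin N))),
      ‖Equiv.Perm.sign σ • ∏ i, Aᵀ (σ i) i‖ ≤ ∏ i, b i := by
    intro σ _
    have h1 : ‖Equiv.Perm.sign σ • ∏ i, Aᵀ (σ i) i‖ = ∏ i, ‖A i (σ i)‖ := by
      rcases Int.units_eq_one_or (Equiv.Perm.sign σ) with h | h
      · rw [h, one_smul, norm_prod]; rfl
      · rw [h, Units.neg_smul, one_smul, norm_neg, norm_prod]; rfl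
    rw [h1]
    exact Finset.prod_le_prod (fun i _ => norm_nonneg _) (fun i _ => hb i _)
  refine (Finset.sum_le_sum key).trans ?_
  rw [Finset.sum_const, Finset.card_univ, Fintype.card_perm, Fintype.card_fin, nsmul_eq_mul]

lemma prod_row (N : ℕ) (j : Fin N) (B : ℝ) :
    ∏ i : Fin N, (if i = j then (1 : ℝ) else B) = B ^ (N - 1) := by
  rw [← Finset.mul_prod_erase univ _ (mem_univ j), if_pos rfl, one_mul,
    Finset.prod_congr rfl (fun i hi => if_neg (Finset.ne_of_mem_erase hi)), Finset.prod_const,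
    Finset.card_erase_of_mem (mem_univ j), Finset.card_univ, Fintype.card_fin]

/-- size of the resultant in terms of the values -/
lemma norm_resultant_le (f g : ℂ[X]) (m n : ℕ) (hf : f.natDegree ≤ m) (hg : g.natDegree ≤ n)
    (hmn : 0 < m + n) (B T ε : ℝ) (hB : 1 ≤ B) (hfB : ∀ i, ‖f.coeff i‖ ≤ B)
    (hgB : ∀ i, ‖g.coeff i‖ ≤ B) (t : ℂ) (hT : 1 ≤ T) (ht : ‖t‖ ≤ T) (hfε : ‖f.eval t‖ ≤ ε)
    (hgε : ‖g.eval t‖ ≤ ε) :
    ‖resultant f g m n‖ ≤
      (m + n) * (T ^ (m + n) * ε) * ((m + n).factorial * B ^ (m + n - 1)) := by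
  classical
  set M := sylvester f g m n with hM
  set v : Fin (m + n) → ℂ := fun i => t ^ (i : ℕ) with hv
  have hε : 0 ≤ ε := (norm_nonneg _).trans hfε
  have hT0 : 0 ≤ T := by linarith
  have hMB : ∀ i j, ‖M i j‖ ≤ B := by
    intro i j
    rw [hM, sylvester, Matrix.of_apply]
    refine Fin.addCases (fun j₁ => ?_) (fun j₁ => ?_) j
    · rw [Fin.addCases_left]
      split_ifs
      · exact hgB _
      · rw [norm_zero]; linarith
    · rw [Fin.addCases_right]
      split_ifs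
      · exact hfB _
      · rw [norm_zero]; linarith
  -- the row vector
  have shift : ∀ (q : ℂ[X]) (k l : ℕ), q.natDegree ≤ l → k + l < m + n →
      ∑ i : Fin (m + n), t ^ (i : ℕ) * (if (i : ℕ) ∈ Set.Icc k (k + l) then q.coeff (i - k) else 0) =
        t ^ k * q.eval t := by
    intro q k l hq hkl
    rw [Fin.sum_univ_eq_sum_range (fun i => t ^ i * (if i ∈ Set.Icc k (k + l) then q.coeff (i - k)
      else 0)) (m + n)]
    have h1 : ∑ i ∈ Finset.range (m + n), t ^ i * (if i ∈ Set.Icc k (k + l) then q.coeff (i - k)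
        else 0) = ∑ i ∈ Finset.Ico k (k + l + 1), t ^ i * q.coeff (i - k) := by
      rw [← Finset.sum_subset (s₁ := Finset.Ico k (k + l + 1))]
      · refine Finset.sum_congr rfl fun i hi => ?_
        rw [Finset.mem_Ico] at hi
        rw [if_pos ⟨hi.1, by omega⟩]
      · intro i hi
        rw [Finset.mem_Ico] at hi
        rw [Finset.mem_range]
        omega
      · intro i _ hi
        rw [Finset.mem_Ico] at hi
        rw [if_neg, mul_zero]
        rintro ⟨h1, h2⟩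
        omega
    rw [h1, Finset.sum_Ico_eq_sum_range, eval_eq_sum_range' (show q.natDegree < l + 1 by omega),
      Finset.mul_sum]
    rw [show k + l + 1 - k = l + 1 by omega]
    refine Finset.sum_congr rfl fun i _ => ?_
    rw [show k + i - k = i by omega, pow_add]
    ring
  have hu : ∀ j, ‖(v ᵥ* M) j‖ ≤ T ^ (m + n) * ε := by
    intro j
    have h0 : (v ᵥ* M) j = ∑ i : Fin (m + n), t ^ (i : ℕ) * M i j := rfl
    have key : ∀ (k : ℕ) (z : ℂ), k ≤ m + n → ‖z‖ ≤ ε → ‖t ^ k * z‖ ≤ T ^ (m + n) * ε := by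
      intro k z hk hz
      rw [norm_mul, norm_pow]
      have h1 : ‖t‖ ^ k ≤ T ^ (m + n) :=
        (pow_le_pow_left₀ (norm_nonneg _) ht k).trans (pow_le_pow_right₀ hT hk)
      gcongr
    rw [h0]
    refine Fin.addCases (fun j₁ => ?_) (fun j₁ => ?_) j
    · have h1 : ∑ i : Fin (m + n), t ^ (i : ℕ) * M i (Fin.castAdd n j₁) = t ^ (j₁ : ℕ) * g.eval t := by
        rw [← shift g j₁ n hg (by have := j₁.2; omega)]
        refine Finset.sum_congr rfl fun i _ => ?_
        rw [hM, sylvester, Matrix.of_apply, Fin.addCases_left]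
      rw [h1]
      exact key _ _ (by have := j₁.2; omega) hgε
    · have h1 : ∑ i : Fin (m + n), t ^ (i : ℕ) * M i (Fin.natAdd m j₁) = t ^ (j₁ : ℕ) * f.eval t := by
        rw [← shift f j₁ m hf (by have := j₁.2; omega)]
        refine Finset.sum_congr rfl fun i _ => ?_
        rw [hM, sylvester, Matrix.of_apply, Fin.addCases_right]
      rw [h1]
      exact key _ _ (by have := j₁.2; omega) hfε
  -- Cramer
  have hadj : ∀ i j, ‖adjugate M i j‖ ≤ (m + n).factorial * B ^ (m + n - 1) := by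
    intro i j
    rw [adjugate_apply, ← prod_row (m + n) j B]
    refine det_le_rows _ _ fun a b => ?_
    by_cases ha : a = j
    · subst ha
      rw [Matrix.updateRow_self, if_pos rfl]
      by_cases hb : b = i
      · subst hb; simp
      · rw [Pi.single_eq_of_ne hb, norm_zero]; exact zero_le_one
    · rw [Matrix.updateRow_ne ha, if_neg ha]
      exact hMB a b
  have hcr : (v ᵥ* M) ᵥ* adjugate M = M.det • v := by
    rw [Matrix.vecMul_vecMul, mul_adjugate, Matrix.vecMul_smul, Matrix.vecMul_one]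
  have h0 := congrFun hcr ⟨0, hmn⟩
  have h1 : (M.det • v) ⟨0, hmn⟩ = resultant f g m n := by
    rw [Pi.smul_apply, smul_eq_mul, hv]
    simp [resultant, hM]
  rw [h1] at h0
  rw [← h0]
  have h2 : ((v ᵥ* M) ᵥ* adjugate M) ⟨0, hmn⟩ = ∑ j, (v ᵥ* M) j * adjugate M j ⟨0, hmn⟩ := rfl
  rw [h2]
  calc ‖∑ j, (v ᵥ* M) j * adjugate M j ⟨0, hmn⟩‖ ≤ ∑ j, ‖(v ᵥ* M) j * adjugate M j ⟨0, hmn⟩‖ :=
        norm_sum_le _ _
    _ ≤ ∑ _j : Fin (m + n), (T ^ (m + n) * ε) * ((m + n).factorial * B ^ (m + n - 1)) := by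
        refine Finset.sum_le_sum fun j _ => ?_
        rw [norm_mul]
        have := hu j
        have := hadj j ⟨0, hmn⟩
        gcongr
    _ = _ := by
        rw [Finset.sum_const, Finset.card_univ, Fintype.card_fin, nsmul_eq_mul]
        push_cast
        ring

lemma norm_aeval (z : ℝ) (A : ℤ[X]) :
    ‖(A.map (Int.castRingHom ℂ)).eval (z : ℂ)‖ = |aeval z A| := by
  have h : aeval (algebraMap ℝ ℂ z) A = algebraMap ℝ ℂ (aeval z A) :=
    aeval_algebraMap_apply ℂ z A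
  rw [eval_map, ← algebraMap_int_eq, ← aeval_def, ← Real.norm_eq_abs, ← Complex.norm_real]
  congr 1

lemma one_le_of_const (z : ℝ) (A : ℤ[X]) (hA : A ≠ 0) (hd : A.natDegree = 0) :
    1 ≤ |aeval z A| := by
  rw [Polynomial.eq_C_of_natDegree_eq_zero hd, aeval_C]
  have h1 : A.coeff 0 ≠ 0 := by
    intro h
    apply hA
    rw [Polynomial.eq_C_of_natDegree_eq_zero hd, h, C_0]
  have h2 : (1 : ℤ) ≤ |A.coeff 0| := Int.one_le_abs h1
  have h3 : (algebraMap ℤ ℝ) (A.coeff 0) = ((A.coeff 0 : ℤ) : ℝ) := rfl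
  rw [h3]
  exact_mod_cast h2

/-- **Two polynomials** -/
theorem pair (n : ℕ) (T : ℝ) (hT : 1 ≤ T) : ∃ C : ℝ, 1 ≤ C ∧ ∀ z : ℝ, |z| ≤ T →
    ∀ A B : ℤ[X], A ≠ 0 → A.natDegree ≤ n → B.natDegree ≤ n →
      (∀ ρ : ℂ, aeval ρ A = 0 → aeval ρ B ≠ 0) → ∀ X : ℝ, 1 ≤ X →
      (∀ i, |(A.coeff i : ℝ)| ≤ X) → (∀ i, |(B.coeff i : ℝ)| ≤ X) →
      ∀ ε : ℝ, |aeval z A| ≤ ε → |aeval z B| ≤ ε → 1 ≤ C * (X ^ (2 * n - 1) * ε) := by
  obtain ⟨C, hC⟩ : ∃ C : ℝ, C = (2 * n) * (T ^ (2 * n)) * ((2 * n).factorial) + 1 := ⟨_, rfl⟩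
  have hT0 : 0 ≤ T := by linarith
  have hC1 : 1 ≤ C := by
    rw [hC]
    have : 0 ≤ (2 * n) * (T ^ (2 * n)) * (((2 * n).factorial : ℕ) : ℝ) := by positivity
    linarith
  refine ⟨C, hC1, fun z hz A B hA hAn hBn hno X hX hAX hBX ε hAε hBε => ?_⟩
  have hXp : 1 ≤ X ^ (2 * n - 1) := one_le_pow₀ hX
  have hε0 : 0 ≤ ε := (abs_nonneg _).trans hAε
  rcases Nat.eq_zero_or_pos A.natDegree with hd | hd
  · have h1 : 1 ≤ ε := (one_le_of_const z A hA hd).trans hAε
    exact one_le_mul_of_one_le_of_one_le hC1 (one_le_mul_of_one_le_of_one_le hXp h1)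
  have hinj : Function.Injective (Int.castRingHom ℂ) := Int.cast_injective
  have hcop : IsCoprime (A.map (Int.castRingHom ℂ)) (B.map (Int.castRingHom ℂ)) := by
    rw [Polynomial.isCoprime_iff_aeval_ne_zero_of_isAlgClosed ℂ ℂ]
    intro a
    by_cases h : aeval a A = 0
    · right
      have := hno a h
      rwa [coe_aeval_eq_eval, eval_map, ← algebraMap_int_eq, ← aeval_def]
    · left
      rwa [coe_aeval_eq_eval, eval_map, ← algebraMap_int_eq, ← aeval_def]
  have h2 := resultant_ne_zero _ _ hcop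
  rw [natDegree_map_eq_of_injective hinj, natDegree_map_eq_of_injective hinj,
    resultant_map_map] at h2
  obtain ⟨m, hm⟩ : ∃ m, m = A.natDegree := ⟨_, rfl⟩
  obtain ⟨k, hk⟩ : ∃ k, k = B.natDegree := ⟨_, rfl⟩
  obtain ⟨R, hR⟩ : ∃ R : ℤ, R = resultant A B m k := ⟨_, rfl⟩
  rw [← hm, ← hk, ← hR] at h2
  have hR0 : R ≠ 0 := by
    intro h0
    rw [h0] at h2
    simp at h2
  have hR1 : (1 : ℝ) ≤ ‖((Int.castRingHom ℂ) R : ℂ)‖ := by
    rw [eq_intCast, Complex.norm_intCast]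
    exact_mod_cast Int.one_le_abs hR0
  have h3 := norm_resultant_le (A.map (Int.castRingHom ℂ)) (B.map (Int.castRingHom ℂ)) m k
    (natDegree_map_le.trans hm.ge) (natDegree_map_le.trans hk.ge) (by omega) X T ε hX
    (fun i => by rw [coeff_map, eq_intCast, Complex.norm_intCast]; exact hAX i)
    (fun i => by rw [coeff_map, eq_intCast, Complex.norm_intCast]; exact hBX i) (z : ℂ) hT
    (by rw [Complex.norm_real]; exact hz) (by rw [norm_aeval]; exact hAε)
    (by rw [norm_aeval]; exact hBε)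
  rw [resultant_map_map, ← hR] at h3
  have hmk : m + k ≤ 2 * n := by omega
  have hmkR : ((m : ℝ) + k) ≤ 2 * n := by exact_mod_cast hmk
  have h4 : T ^ (m + k) ≤ T ^ (2 * n) := pow_le_pow_right₀ hT hmk
  have h5 : (((m + k).factorial : ℕ) : ℝ) ≤ (2 * n).factorial := by
    exact_mod_cast Nat.factorial_le hmk
  have h6 : X ^ (m + k - 1) ≤ X ^ (2 * n - 1) := pow_le_pow_right₀ hX (by omega)
  have hX0 : 0 ≤ X := by linarith
  calc (1 : ℝ) ≤ _ := hR1
    _ ≤ _ := h3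
    _ ≤ (2 * n) * (T ^ (2 * n) * ε) * ((2 * n).factorial * X ^ (2 * n - 1)) := by gcongr
    _ = ((2 * n) * (T ^ (2 * n)) * ((2 * n).factorial)) * (X ^ (2 * n - 1) * ε) := by ring
    _ ≤ C * (X ^ (2 * n - 1) * ε) := by
        rw [hC]
        have : 0 ≤ X ^ (2 * n - 1) * ε := by positivity
        nlinarith

/-- a combination without given zeros -/
lemma comb (n : ℕ) (z : ℝ) (S : Set ℤ[X]) (X ε : ℝ) (hX : 0 ≤ X) (hε : 0 ≤ ε)
    (hdeg : ∀ Q ∈ S, Q.natDegree ≤ n) (hc : ∀ Q ∈ S, ∀ i, |(Q.coeff i : ℝ)| ≤ X)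
    (hv : ∀ Q ∈ S, |aeval z Q| ≤ ε) (hno : ∀ ρ : ℂ, ∃ Q ∈ S, aeval ρ Q ≠ 0) (R : Finset ℂ) :
    ∃ T : ℤ[X], T.natDegree ≤ n ∧ (∀ i, |(T.coeff i : ℝ)| ≤ ((R.card : ℝ) + 1) ^ 2 * X) ∧
      |aeval z T| ≤ ((R.card : ℝ) + 1) ^ 2 * ε ∧ ∀ ρ ∈ R, aeval ρ T ≠ 0 := by
  classical
  induction R using Finset.induction_on with
  | empty =>
    refine ⟨0, by simp, fun i => ?_, ?_, by simp⟩
    · simpa using hX
    · simpa using hε
  | insert a R ha ih =>
    obtain ⟨T, hT1, hT2, hT3, hT4⟩ := ih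
    obtain ⟨Q, hQ, hQa⟩ := hno a
    have hex : ∃ c ∈ Finset.range (R.card + 2), ∀ ρ ∈ insert a R,
        aeval ρ (T + (c : ℤ[X]) * Q) ≠ 0 := by
      by_contra hcon
      push Not at hcon
      choose! f hf1 hf2 using hcon
      have hcard : (insert a R).card < (Finset.range (R.card + 2)).card := by
        rw [Finset.card_insert_of_notMem ha, Finset.card_range]; omega
      obtain ⟨c, hc1, c', hc1', hne, heq⟩ :=
        Finset.exists_ne_map_eq_of_card_lt_of_maps_to hcard (fun c hc => hf1 c hc)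
      have h1 := hf2 c hc1
      have h2 := hf2 c' hc1'
      rw [← heq] at h2
      have hρ := hf1 c hc1
      obtain ⟨ρ, hρd⟩ : ∃ ρ, ρ = f c := ⟨_, rfl⟩
      rw [← hρd] at h1 h2 hρ
      simp only [map_add, map_mul, map_natCast] at h1 h2
      have h3 : ((c : ℂ) - c') * aeval ρ Q = 0 := by linear_combination h1 - h2
      have h4 : aeval ρ Q = 0 := by
        rcases mul_eq_zero.1 h3 with h5 | h5
        · exfalso
          apply hne
          have : (c : ℂ) = c' := by linear_combination h5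
          exact_mod_cast this
        · exact h5
      rw [h4, mul_zero, add_zero] at h1
      rcases Finset.mem_insert.1 hρ with h5 | h5
      · rw [h5] at h4; exact hQa h4
      · exact hT4 ρ h5 h1
    obtain ⟨c, hc1, hc2⟩ := hex
    rw [Finset.mem_range] at hc1
    have hcR : (c : ℝ) ≤ R.card + 1 := by exact_mod_cast (by omega : c ≤ R.card + 1)
    have hR0 : (0 : ℝ) ≤ R.card := Nat.cast_nonneg _
    rw [Finset.card_insert_of_notMem ha]
    push_cast
    have hc0 : (0 : ℝ) ≤ c := Nat.cast_nonneg _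
    refine ⟨T + (c : ℤ[X]) * Q, ?_, fun i => ?_, ?_, hc2⟩
    · refine (natDegree_add_le _ _).trans (max_le hT1 ?_)
      have h1 : ((c : ℤ[X]) * Q).natDegree ≤ (c : ℤ[X]).natDegree + Q.natDegree :=
        natDegree_mul_le
      rw [natDegree_natCast, zero_add] at h1
      exact h1.trans (hdeg Q hQ)
    · have h1 : (T + (c : ℤ[X]) * Q).coeff i = T.coeff i + (c : ℤ) * Q.coeff i := by
        rw [coeff_add, show ((c : ℤ[X])) = C ((c : ℤ)) by simp, coeff_C_mul]
      rw [h1]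
      push_cast
      refine (abs_add_le _ _).trans ?_
      rw [abs_mul, abs_of_nonneg hc0]
      have h2 := hT2 i
      have h3 : (c : ℝ) * |(Q.coeff i : ℝ)| ≤ (R.card + 1) * X :=
        mul_le_mul hcR (hc Q hQ i) (abs_nonneg _) (by positivity)
      nlinarith
    · rw [map_add, map_mul, map_natCast]
      refine (abs_add_le _ _).trans ?_
      rw [abs_mul, abs_of_nonneg hc0]
      have h3 : (c : ℝ) * |aeval z Q| ≤ (R.card + 1) * ε :=
        mul_le_mul hcR (hv Q hQ) (abs_nonneg _) (by positivity)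
      nlinarith

/-- **Families without common zero** -/
theorem family (n : ℕ) (T : ℝ) (hT : 1 ≤ T) : ∃ C : ℝ, 1 ≤ C ∧ ∀ z : ℝ, |z| ≤ T →
    ∀ (S : Set ℤ[X]) (X ε : ℝ), 1 ≤ X → (∀ Q ∈ S, Q.natDegree ≤ n) →
      (∀ Q ∈ S, ∀ i, |(Q.coeff i : ℝ)| ≤ X) → (∀ Q ∈ S, |aeval z Q| ≤ ε) →
      (∀ ρ : ℂ, ∃ Q ∈ S, aeval ρ Q ≠ 0) → 1 ≤ C * (X ^ (2 * n - 1) * ε) := by
  classical
  obtain ⟨C, hC1, hC⟩ := pair n T hT
  obtain ⟨s, hs⟩ : ∃ s : ℝ, s = ((n : ℝ) + 1) ^ 2 := ⟨_, rfl⟩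
  have hs1 : 1 ≤ s := by
    rw [hs]
    have : (0 : ℝ) ≤ n := Nat.cast_nonneg _
    nlinarith
  refine ⟨C * (s ^ (2 * n - 1) * s), one_le_mul_of_one_le_of_one_le hC1
    (one_le_mul_of_one_le_of_one_le (one_le_pow₀ hs1) hs1), ?_⟩
  intro z hz S X ε hX hdeg hco hval hno
  obtain ⟨Q, hQ, hQ0⟩ := hno 0
  have hQne : Q ≠ 0 := by rintro rfl; simp at hQ0
  have hε0 : 0 ≤ ε := (abs_nonneg _).trans (hval Q hQ)
  have hinj : Function.Injective (Int.castRingHom ℂ) := Int.cast_injective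
  have hmap : Q.map (Int.castRingHom ℂ) ≠ 0 := (Polynomial.map_ne_zero_iff hinj).2 hQne
  obtain ⟨R, hR⟩ : ∃ R : Finset ℂ, R = (Q.map (Int.castRingHom ℂ)).roots.toFinset := ⟨_, rfl⟩
  have hRcard : R.card ≤ n := by
    rw [hR]
    refine (Multiset.toFinset_card_le _).trans ((card_roots' _).trans ?_)
    rw [natDegree_map_eq_of_injective hinj]
    exact hdeg Q hQ
  obtain ⟨P, hP1, hP2, hP3, hP4⟩ := comb n z S X ε (by linarith) hε0 hdeg hco hval hno R
  have hcs : ((R.card : ℝ) + 1) ^ 2 ≤ s := by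
    rw [hs]
    have h1 : (R.card : ℝ) ≤ n := by exact_mod_cast hRcard
    have h2 : (0 : ℝ) ≤ R.card := Nat.cast_nonneg _
    gcongr
  have hX0 : 0 ≤ X := by linarith
  have h := hC z hz Q P hQne (hdeg Q hQ) hP1 (fun ρ hρ => hP4 ρ (by
      rw [hR, Multiset.mem_toFinset, mem_roots hmap, IsRoot.def, eval_map, ← algebraMap_int_eq,
        ← aeval_def]
      exact hρ)) (s * X) (one_le_mul_of_one_le_of_one_le hs1 hX)
    (fun i => (hco Q hQ i).trans (le_mul_of_one_le_left hX0 hs1))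
    (fun i => (hP2 i).trans (mul_le_mul_of_nonneg_right hcs hX0)) (s * ε)
    ((hval Q hQ).trans (le_mul_of_one_le_left hε0 hs1))
    (hP3.trans (mul_le_mul_of_nonneg_right hcs hε0))
  calc (1 : ℝ) ≤ _ := h
    _ = _ := by rw [mul_pow]; ring

end Pool.Agent.V1139.DC
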