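import Pool.Agent.V1139.DC.Cons

/-!
# Families of numbers which are not simultaneously close to rational numbers

Author: helper39.
-/

set_option autoImplicit false

namespace Pool.Agent.V1139.DC

open Polynomial Finset

/-- crude form of `absorb`, uniform in `z` -/
theorem absorb_unif (T : ℝ) (hT : 1 ≤ T) (n : ℕ) : ∃ C : ℝ, 1 ≤ C ∧ ∀ z : ℝ, |z| ≤ T →
    ∀ (S : Set ℤ[X]) (X ε η : ℝ), 1 ≤ X → 0 < η → η ≤ 1 → (∀ Q ∈ S, Q.natDegree ≤ n) →
      (∀ Q ∈ S, MM Q ≤ X) → (∀ Q ∈ S, |aeval z Q| ≤ ε) → (∃ Q ∈ S, Q ≠ 0) →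
      (∀ ρ : ℂ, (∀ Q ∈ S, aeval ρ Q = 0) → ∃ r : ℚ, ρ = r) →
      (∀ r : ℚ, MM (lin r) ≤ X → η ≤ |aeval z (lin r)|) →
      η ^ n ≤ C * (X ^ (2 * n - 1) * ε) := by
  induction n with
  | zero =>
    refine ⟨1, le_rfl, fun z _ S X ε η hX _ _ hdeg hM hval hne _ _ => ?_⟩
    obtain ⟨Q, hQ, hQ0⟩ := hne
    have h1 : 1 ≤ ε := (one_le_of_const z Q hQ0 (by have := hdeg Q hQ; omega)).trans (hval Q hQ)
    simpa using h1
  | succ n ih =>
    obtain ⟨C₁, hC₁, h₁⟩ := ih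
    obtain ⟨C₂, hC₂, h₂⟩ := family (n + 1) T hT
    obtain ⟨s, hs⟩ : ∃ s : ℝ, s = 2 ^ (n + 1) := ⟨_, rfl⟩
    have hs1 : 1 ≤ s := by rw [hs]; exact one_le_pow₀ (by norm_num)
    refine ⟨max (C₂ * s ^ (2 * (n + 1) - 1)) C₁, le_max_of_le_right hC₁, ?_⟩
    intro z hz S X ε η hX hη hη1 hdeg hM hval hne hrat hlow
    have hX0 : 0 < X := by linarith
    obtain ⟨Q0, hQ0, hQ0ne⟩ := hne
    have hε0 : 0 ≤ ε := (abs_nonneg _).trans (hval Q0 hQ0)
    have hbase : 0 ≤ X ^ (2 * (n + 1) - 1) * ε := by positivity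
    by_cases hcom : ∃ ρ : ℂ, ∀ Q ∈ S, aeval ρ Q = 0
    · obtain ⟨ρ, hρ⟩ := hcom
      obtain ⟨r, hr⟩ := hrat ρ hρ
      rw [hr] at hρ
      have hMr : 1 ≤ MM (lin r) := one_le_MM _ (lin_ne_zero r)
      obtain ⟨Q0', hQ0'⟩ := lin_dvd r Q0 (hρ Q0 hQ0)
      have hQ0'ne : Q0' ≠ 0 := by rintro rfl; rw [mul_zero] at hQ0'; exact hQ0ne hQ0'
      have hM0' : 1 ≤ MM Q0' := one_le_MM _ hQ0'ne
      have hrX : MM (lin r) ≤ X := by
        have h3 := hM Q0 hQ0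
        rw [hQ0', MM_mul] at h3
        nlinarith
      have hv := hlow r hrX
      have hv0 : 0 < |aeval z (lin r)| := lt_of_lt_of_le hη hv
      obtain ⟨S', hS'⟩ : ∃ S' : Set ℤ[X], S' = {Q' | lin r * Q' ∈ S} := ⟨_, rfl⟩
      have hmem : ∀ Q', Q' ∈ S' ↔ lin r * Q' ∈ S := by intro Q'; rw [hS']; rfl
      have key := h₁ z hz S' X (ε / η) η hX hη hη1 (by
          intro Q' hQ'
          rcases eq_or_ne Q' 0 with h3 | h3
          · rw [h3, natDegree_zero]; exact Nat.zero_le _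
          · have h4 := hdeg _ ((hmem Q').1 hQ')
            rw [natDegree_mul (lin_ne_zero r) h3, lin_natDegree] at h4
            omega) (by
          intro Q' hQ'
          have h3 := hM _ ((hmem Q').1 hQ')
          rw [MM_mul] at h3
          have h4 : 0 ≤ MM Q' := mahlerMeasure_nonneg _
          nlinarith) (by
          intro Q' hQ'
          have h3 := hval _ ((hmem Q').1 hQ')
          rw [map_mul, abs_mul] at h3
          rw [le_div_iff₀ hη]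
          have h4 : |aeval z Q'| * η ≤ |aeval z Q'| * |aeval z (lin r)| :=
            mul_le_mul_of_nonneg_left hv (abs_nonneg _)
          linarith) ⟨Q0', (hmem Q0').2 (hQ0' ▸ hQ0), hQ0'ne⟩ (by
          intro ρ' hρ'
          refine hrat ρ' fun Q hQ => ?_
          obtain ⟨Q', hQ'⟩ := lin_dvd r Q (hρ Q hQ)
          rw [hQ', map_mul, hρ' Q' ((hmem Q').2 (hQ' ▸ hQ)), mul_zero]) hlow
      have e3 : X ^ (2 * n - 1) ≤ X ^ (2 * (n + 1) - 1) := pow_le_pow_right₀ hX (by omega)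
      have e4 : η ^ n * η ≤ C₁ * (X ^ (2 * n - 1) * (ε / η)) * η :=
        mul_le_mul_of_nonneg_right key hη.le
      have e5 : C₁ * (X ^ (2 * n - 1) * (ε / η)) * η = C₁ * (X ^ (2 * n - 1) * ε) := by
        field_simp
      rw [e5] at e4
      rw [pow_succ]
      refine e4.trans ?_
      calc C₁ * (X ^ (2 * n - 1) * ε) ≤ C₁ * (X ^ (2 * (n + 1) - 1) * ε) := by gcongr
        _ ≤ _ := mul_le_mul_of_nonneg_right (le_max_right _ _) hbase
    · push Not at hcom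
      have key := h₂ z hz S (s * X) ε
        (one_le_mul_of_one_le_of_one_le hs1 hX) hdeg (fun Q hQ i => by
          refine (coeff_le_MM Q (n + 1) (hdeg Q hQ) i).trans ?_
          rw [hs]
          exact mul_le_mul_of_nonneg_left (hM Q hQ) (by positivity)) hval hcom
      refine (pow_le_one₀ hη.le hη1).trans (key.trans ?_)
      rw [mul_pow]
      calc C₂ * (s ^ (2 * (n + 1) - 1) * X ^ (2 * (n + 1) - 1) * ε)
          = (C₂ * s ^ (2 * (n + 1) - 1)) * (X ^ (2 * (n + 1) - 1) * ε) := by ring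
        _ ≤ _ := mul_le_mul_of_nonneg_right (le_max_left _ _) hbase

/-- `ξ` is irrational and algebraic of degree at most `max n 2` -/
def IrrAlg (n : ℕ) (ξ : ℂ) : Prop :=
  (¬ ∃ r : ℚ, ξ = r) ∧ ∃ G : ℤ[X], G ≠ 0 ∧ G.natDegree ≤ max n 2 ∧ aeval ξ G = 0

lemma irrAlg_I (n : ℕ) : IrrAlg n Complex.I :=
  ⟨I_irrational, X ^ 2 + 1, X_sq_add_one_ne, X_sq_add_one_deg.trans (le_max_right _ _),
    X_sq_add_one_I⟩

/-- the near relations have a common irrational zero -/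
def Tame (n : ℕ) (X ε z : ℝ) : Prop :=
  ∃ ξ : ℂ, IrrAlg n ξ ∧ ∀ Q ∈ Near z n X ε, aeval ξ Q = 0

/-- near relations have a common irrational zero, or `z` is close to a rational number -/
theorem tame_or (T : ℝ) (hT : 1 ≤ T) (n : ℕ) : ∃ c : ℝ, 0 < c ∧ ∀ z : ℝ, |z| ≤ T →
    ∀ X ε η : ℝ, 1 ≤ X → 0 < η → η ≤ 1 → ε * X ^ (2 * n - 1) < c * η ^ n →
      Tame n X ε z ∨ ∃ (v : ℕ) (u : ℤ), 1 ≤ v ∧ (v : ℝ) ≤ X ∧ |v * z - u| < η := by
  obtain ⟨C, hC, h⟩ := absorb_unif T hT n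
  have hC0 : 0 < C := by linarith
  refine ⟨1 / C, by positivity, fun z hz X ε η hX hη hη1 hε => ?_⟩
  by_cases hne : (Near z n X ε).Nonempty
  swap
  · left
    exact ⟨Complex.I, irrAlg_I n, fun Q hQ => absurd ⟨Q, hQ⟩ hne⟩
  obtain ⟨Q0, hQ0⟩ := hne
  by_contra hcon
  push Not at hcon
  obtain ⟨hcon1, hcon2⟩ := hcon
  have h1 := h z hz (Near z n X ε) X ε η hX hη hη1 (fun Q hQ => hQ.2.1) (fun Q hQ => hQ.2.2.1)
    (fun Q hQ => hQ.2.2.2) ⟨Q0, hQ0, hQ0.1⟩ (fun ρ hρ => by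
      by_contra hρr
      exact hcon1 ⟨ρ, ⟨hρr, Q0, hQ0.1, hQ0.2.1.trans (le_max_left _ _), hρ Q0 hQ0⟩, hρ⟩) (by
      intro r hr
      rw [lin_MM] at hr
      rw [lin_aeval]
      have h2 := hcon2 r.den r.num r.den_pos (le_trans (by
        have := le_max_left ((r.den : ℤ) : ℝ) |((-r.num : ℤ) : ℝ)|
        push_cast at this ⊢
        exact this) hr)
      have h3 : ((-r.num : ℤ) : ℝ) + ((r.den : ℤ) : ℝ) * z = r.den * z - r.num := by
        push_cast; ring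
      rw [h3]
      exact h2)
  have h2 : C * (X ^ (2 * n - 1) * ε) < C * (1 / C * η ^ n) := by
    apply mul_lt_mul_of_pos_left _ hC0
    linarith
  have h3 : C * (1 / C * η ^ n) = η ^ n := by field_simp
  linarith

/-- a common denominator -/
lemma common_den (z : ℕ → ℝ) (X η : ℝ) (hX : 1 ≤ X) (hη : 0 < η) (J : Finset ℕ)
    (h : ∀ j ∈ J, ∃ (v : ℕ) (u : ℤ), 1 ≤ v ∧ (v : ℝ) ≤ X ∧ |v * z j - u| < η) :
    ∃ q : ℕ, 1 ≤ q ∧ (q : ℝ) ≤ X ^ J.card ∧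
      ∀ j ∈ J, ∃ p : ℤ, |q * z j - p| ≤ X ^ J.card * η := by
  classical
  induction J using Finset.induction_on with
  | empty => exact ⟨1, le_rfl, by simp, by simp⟩
  | insert a J ha ih =>
    obtain ⟨q, hq1, hq2, hq3⟩ := ih fun j hj => h j (Finset.mem_insert_of_mem hj)
    obtain ⟨v, u, hv1, hv2, hv3⟩ := h a (Finset.mem_insert_self _ _)
    rw [Finset.card_insert_of_notMem ha]
    have hX0 : 0 ≤ X := by linarith
    have hv0 : (0 : ℝ) ≤ v := Nat.cast_nonneg _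
    have hq0 : (0 : ℝ) ≤ q := Nat.cast_nonneg _
    refine ⟨v * q, Nat.mul_pos hv1 hq1, ?_, fun j hj => ?_⟩
    · push_cast
      rw [pow_succ, mul_comm]
      exact mul_le_mul hq2 hv2 hv0 (by positivity)
    · rcases Finset.mem_insert.1 hj with h1 | h1
      · refine ⟨q * u, ?_⟩
        rw [h1]
        push_cast
        have e : (v : ℝ) * q * z a - q * u = q * (v * z a - u) := by ring
        rw [e, abs_mul, abs_of_nonneg hq0, pow_succ]
        calc (q : ℝ) * |v * z a - u| ≤ X ^ J.card * η := mul_le_mul hq2 hv3.le (abs_nonneg _) (by positivity)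
          _ ≤ X ^ J.card * X * η := by
              have : X ^ J.card * η * 1 ≤ X ^ J.card * η * X :=
                mul_le_mul_of_nonneg_left hX (by positivity)
              linarith
      · obtain ⟨p, hp⟩ := hq3 j h1
        refine ⟨v * p, ?_⟩
        push_cast
        have e : (v : ℝ) * q * z j - v * p = v * (q * z j - p) := by ring
        rw [e, abs_mul, abs_of_nonneg hv0, pow_succ]
        calc (v : ℝ) * |q * z j - p| ≤ X * (X ^ J.card * η) := mul_le_mul hv2 hp (abs_nonneg _) hX0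
          _ = _ := by ring

/-- **Families** -/
theorem family_tame (z : ℕ → ℝ) (A : Finset ℕ) (K : ℕ) (τ c₀ : ℝ) (hτ : 0 ≤ τ) (hc₀ : 0 < c₀)
    (q₀ : ℕ) (hz : ∀ q : ℕ, q₀ ≤ q → 1 ≤ q → K ≤ Set.ncard {j : ℕ | j ∈ A ∧
      ∀ p : ℤ, c₀ * (q : ℝ) ^ (-τ) ≤ |(q : ℝ) * z j - p|}) (n : ℕ) (hn : 1 ≤ n) :
    ∃ c : ℝ, 0 < c ∧ ∀ X : ℝ, 1 ≤ X → ∀ ε : ℝ,
      ε < c * X ^ (-((n : ℝ) * (A.card * (1 + τ) + 2) - 1)) →
      K ≤ Set.ncard {j : ℕ | j ∈ A ∧ Tame n X ε (z j)} := by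
  classical
  obtain ⟨T, hT⟩ : ∃ T : ℝ, T = 1 + ∑ j ∈ A, |z j| := ⟨_, rfl⟩
  have hT1 : 1 ≤ T := by
    rw [hT]
    have : 0 ≤ ∑ j ∈ A, |z j| := Finset.sum_nonneg fun j _ => abs_nonneg _
    linarith
  have hzT : ∀ j ∈ A, |z j| ≤ T := by
    intro j hj
    have := Finset.single_le_sum (f := fun j => |z j|) (fun i _ => abs_nonneg _) hj
    rw [hT]
    linarith
  obtain ⟨c₁, hc₁, h₁⟩ := tame_or T hT1 n
  obtain ⟨m, hm⟩ : ∃ m : ℕ, m = A.card := ⟨_, rfl⟩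
  obtain ⟨Q₀, hQ₀⟩ : ∃ Q₀ : ℕ, Q₀ = q₀ + 1 := ⟨_, rfl⟩
  have hQ₀1 : (1 : ℝ) ≤ Q₀ := by rw [hQ₀]; push_cast; linarith [Nat.cast_nonneg (α := ℝ) q₀]
  have hQ₀0 : (0 : ℝ) < Q₀ := by linarith
  -- `η = d X ^ (- m (1 + τ))`
  obtain ⟨d, hd⟩ : ∃ d : ℝ, d = min 1 (c₀ * (Q₀ : ℝ) ^ (-τ) / (2 * Q₀)) := ⟨_, rfl⟩
  have hd0 : 0 < d := by rw [hd]; positivity
  have hd1 : d ≤ 1 := by rw [hd]; exact min_le_left _ _
  have hd2 : d * (2 * Q₀) ≤ c₀ * (Q₀ : ℝ) ^ (-τ) := by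
    rw [← le_div_iff₀ (by positivity), hd]; exact min_le_right _ _
  refine ⟨c₁ * d ^ n, by positivity, fun X hX ε hε => ?_⟩
  have hX0 : 0 < X := by linarith
  obtain ⟨η, hη⟩ : ∃ η : ℝ, η = d * X ^ (-((m : ℝ) * (1 + τ))) := ⟨_, rfl⟩
  have hη0 : 0 < η := by rw [hη]; positivity
  have hmτ : 0 ≤ (m : ℝ) * (1 + τ) := by positivity
  have hη1 : η ≤ 1 := by
    rw [hη]
    have : X ^ (-((m : ℝ) * (1 + τ))) ≤ 1 :=
      Real.rpow_le_one_of_one_le_of_nonpos hX (by linarith)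
    exact mul_le_one₀ hd1 (by positivity) this
  have hεη : ε * X ^ (2 * n - 1) < c₁ * η ^ n := by
    have hXp : 0 < X ^ (2 * n - 1) := by positivity
    have e1 : η ^ n = d ^ n * X ^ (-((n : ℝ) * (m * (1 + τ)))) := by
      rw [hη, mul_pow, ← Real.rpow_natCast (X ^ (-((m : ℝ) * (1 + τ)))) n, ← Real.rpow_mul hX0.le]
      congr 2
      ring
    rw [e1]
    have e2 : X ^ (-((n : ℝ) * (A.card * (1 + τ) + 2) - 1)) * X ^ (2 * n - 1) ≤
        X ^ (-((n : ℝ) * (m * (1 + τ)))) := by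
      rw [← Real.rpow_natCast X (2 * n - 1), ← Real.rpow_add hX0]
      apply le_of_eq
      congr 1
      rw [Nat.cast_sub (by omega)]
      push_cast
      rw [hm]
      ring
    calc ε * X ^ (2 * n - 1)
        < (c₁ * d ^ n * X ^ (-((n : ℝ) * (A.card * (1 + τ) + 2) - 1))) * X ^ (2 * n - 1) :=
          mul_lt_mul_of_pos_right hε hXp
      _ = (c₁ * d ^ n) * (X ^ (-((n : ℝ) * (A.card * (1 + τ) + 2) - 1)) * X ^ (2 * n - 1)) := by
          ring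
      _ ≤ (c₁ * d ^ n) * X ^ (-((n : ℝ) * (m * (1 + τ)))) :=
          mul_le_mul_of_nonneg_left e2 (by positivity)
      _ = _ := by ring
  obtain ⟨J, hJ⟩ : ∃ J : Finset ℕ, J = A.filter fun j => ¬ Tame n X ε (z j) := ⟨_, rfl⟩
  have hJm : J.card ≤ m := by rw [hJ, hm]; exact Finset.card_filter_le _ _
  obtain ⟨q, hq1, hq2, hq3⟩ := common_den z X η hX hη0 J (fun j hj => by
    rw [hJ, Finset.mem_filter] at hj
    rcases h₁ (z j) (hzT j hj.1) X ε η hX hη0 hη1 hεη with h2 | h2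
    · exact absurd h2 hj.2
    · exact h2)
  have hq0 : (0 : ℝ) < q := by exact_mod_cast hq1
  refine (hz (Q₀ * q) ?_ ?_).trans (Set.ncard_le_ncard ?_ ?_)
  · calc q₀ ≤ Q₀ * 1 := by omega
      _ ≤ Q₀ * q := Nat.mul_le_mul_left _ hq1
  · exact Nat.mul_pos (by omega) hq1
  · rintro j ⟨hjA, hj⟩
    refine ⟨hjA, ?_⟩
    by_contra hcon
    have hjJ : j ∈ J := by rw [hJ, Finset.mem_filter]; exact ⟨hjA, hcon⟩
    obtain ⟨p, hp⟩ := hq3 j hjJ
    have h2 := hj (Q₀ * p)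
    push_cast at h2
    have e1 : (Q₀ : ℝ) * q * z j - Q₀ * p = Q₀ * (q * z j - p) := by ring
    rw [e1, abs_mul, abs_of_pos hQ₀0] at h2
    have hXm : X ^ J.card ≤ X ^ m := pow_le_pow_right₀ hX hJm
    have hqX : (q : ℝ) ≤ X ^ m := hq2.trans hXm
    have h3 : (X ^ m) ^ (-τ) ≤ (q : ℝ) ^ (-τ) :=
      Real.rpow_le_rpow_of_nonpos hq0 hqX (by linarith)
    have h4 : (Q₀ : ℝ) * |q * z j - p| ≤ Q₀ * (X ^ m * η) := by
      apply mul_le_mul_of_nonneg_left _ hQ₀0.le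
      exact hp.trans (mul_le_mul_of_nonneg_right hXm hη0.le)
    have h5 : X ^ m * η = d * (X ^ m) ^ (-τ) := by
      rw [hη, ← Real.rpow_natCast X m, ← Real.rpow_mul hX0.le]
      have : (X : ℝ) ^ ((m : ℝ)) * (d * X ^ (-((m : ℝ) * (1 + τ)))) =
          d * (X ^ ((m : ℝ)) * X ^ (-((m : ℝ) * (1 + τ)))) := by ring
      rw [this, ← Real.rpow_add hX0]
      congr 2
      ring
    have h6 : ((Q₀ : ℝ) * q) ^ (-τ) = (Q₀ : ℝ) ^ (-τ) * (q : ℝ) ^ (-τ) :=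
      Real.mul_rpow hQ₀0.le hq0.le
    rw [h6] at h2
    rw [h5] at h4
    have hqτ : 0 < (q : ℝ) ^ (-τ) := by positivity
    have h7 : c₀ * ((Q₀ : ℝ) ^ (-τ) * (q : ℝ) ^ (-τ)) ≤ Q₀ * (d * (q : ℝ) ^ (-τ)) :=
      h2.trans (h4.trans (mul_le_mul_of_nonneg_left (mul_le_mul_of_nonneg_left h3 hd0.le)
        hQ₀0.le))
    have h8 : d * (2 * Q₀) * (q : ℝ) ^ (-τ) ≤ c₀ * (Q₀ : ℝ) ^ (-τ) * (q : ℝ) ^ (-τ) :=
      mul_le_mul_of_nonneg_right hd2 hqτ.le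
    have h9 : 0 < Q₀ * (d * (q : ℝ) ^ (-τ)) := by positivity
    nlinarith
  · exact A.finite_toSet.subset fun j hj => hj.1

end Pool.Agent.V1139.DC
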